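import Pool.Agent.H669.TM.Inj

set_option autoImplicit false
set_option linter.unusedSectionVars false

/-!
Torsion modules over principal ideal domains with an infinite-dimensional socle at a prime.
-/

namespace Pool.Agent.H669.TM

open Submodule

variable {R : Type} [CommRing R] [IsDomain R] [IsPrincipalIdealRing R] {M : Type}
  [AddCommGroup M] [Module R M]

/-- torsion modules -/
def Tors (R M : Type) [CommRing R] [AddCommGroup M] [Module R M] : Prop :=
  ∀ x : M, ∃ r : R, r ≠ 0 ∧ r • x = 0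

/-- the multiples of `p ^ k` -/
def Pw (p : R) (k : ℕ) : Submodule R M := LinearMap.range (LinearMap.lsmul R M (p ^ k))

theorem mem_Pw {p : R} {k : ℕ} {x : M} : x ∈ Pw p k ↔ ∃ y : M, p ^ k • y = x := Iff.rfl

theorem Pw_anti {p : R} {k l : ℕ} (h : k ≤ l) : (Pw p l : Submodule R M) ≤ Pw p k := by
  intro x hx
  obtain ⟨y, rfl⟩ := mem_Pw.1 hx
  refine mem_Pw.2 ⟨p ^ (l - k) • y, ?_⟩
  rw [← mul_smul, ← pow_add]
  congr 2
  omega

/-- the socle -/
def So (M : Type) [AddCommGroup M] [Module R M] (p : R) : Submodule R M := torsionBy R M p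

theorem mem_So {p : R} {x : M} : x ∈ So M p ↔ p • x = 0 := mem_torsionBy_iff p x

theorem artin_of_fg (ht : Tors R M) {F : Submodule R M} (hF : F.FG) : IsArtinian R F := by
  refine Submodule.fg_induction (motive := fun (N : Submodule R M) _ => IsArtinian R N) ?_ ?_ F hF
  · intro x
    obtain ⟨r, hr, hx⟩ := ht x
    obtain ⟨a, ha⟩ := (IsPrincipalIdealRing.principal (Ideal.torsionOf R M x)).principal
    have ha0 : a ≠ 0 := by
      intro h0
      have : r ∈ Ideal.torsionOf R M x := (Ideal.mem_torsionOf_iff x r).2 hx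
      rw [ha, h0] at this
      simp at this
      exact hr this
    have h1 : IsArtinian R (R ⧸ Ideal.span {a}) := (isFiniteLength_iff_isNoetherian_isArtinian.1
      (isFiniteLength_quotient_span_singleton R (mem_nonZeroDivisors_of_ne_zero ha0))).2
    have h2 : Ideal.torsionOf R M x = Ideal.span {a} := ha
    rw [← h2] at h1
    exact isArtinian_of_linearEquiv (Ideal.quotTorsionOfEquivSpanSingleton R M x)
  · intro N₁ N₂ _ _ h1 h2
    exact isArtinian_sup N₁ N₂

theorem fg_of_le {N N' : Submodule R M} (h : N ≤ N') (hN : N'.FG) : N.FG := by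
  have h1 : IsNoetherian R N' := isNoetherian_of_fg_of_noetherian N' hN
  exact (isNoetherian_submodule.1 h1) N h

/-- there is no cyclic direct summand outside `F` -/
def Bad (p : R) (F : Submodule R M) : Prop :=
  ∀ (k : ℕ) (y : M), p ^ (k + 1) • y = 0 → p ^ k • y ∈ F ⊔ Pw p (k + 1)

theorem Bad.le {p : R} {F : Submodule R M} (h : Bad p F) (k : ℕ) :
    So M p ⊓ Pw p k ≤ F ⊔ Pw p (k + 1) := by
  rintro x ⟨h1, h2⟩
  obtain ⟨y, rfl⟩ := mem_Pw.1 h2
  refine h k y ?_
  rw [pow_succ', mul_smul]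
  exact mem_So.1 h1

theorem Bad.stab (ht : Tors R M) {p : R} {F : Submodule R M} (hF : F.FG) (h : Bad p F) :
    ∃ m, ∀ k, m ≤ k → ∀ x : M, p • x = 0 → x ∈ Pw p k → x ∈ Pw p (k + 1) := by
  have := artin_of_fg ht hF
  let f : ℕ →o (Submodule R F)ᵒᵈ :=
    { toFun := fun k => OrderDual.toDual
        (Submodule.comap F.subtype ((So M p ⊓ Pw p k) ⊔ Pw p (k + 1)))
      monotone' := by
        intro k l hkl
        show Submodule.comap F.subtype ((So M p ⊓ Pw p l) ⊔ Pw p (l + 1)) ≤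
          Submodule.comap F.subtype ((So M p ⊓ Pw p k) ⊔ Pw p (k + 1))
        rcases hkl.eq_or_lt with rfl | hlt
        · exact le_rfl
        · refine Submodule.comap_mono (le_trans ?_ le_sup_right)
          exact sup_le (inf_le_right.trans (Pw_anti hlt)) (Pw_anti (by omega)) }
  obtain ⟨m, hm⟩ := IsArtinian.monotone_stabilizes f
  refine ⟨m, fun k hk x hx hxk => ?_⟩
  have e : f k = f (k + 1) := (hm k hk).symm.trans (hm (k + 1) (by omega))
  have e' : Submodule.comap F.subtype ((So M p ⊓ Pw p k) ⊔ Pw p (k + 1)) =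
      Submodule.comap F.subtype ((So M p ⊓ Pw p (k + 1)) ⊔ Pw p (k + 1 + 1)) := e
  have hS : x ∈ So M p ⊓ Pw p k := ⟨mem_So.2 hx, hxk⟩
  obtain ⟨a, ha, z, hz, hxz⟩ := Submodule.mem_sup.1 (h.le k hS)
  have h1 : (⟨a, ha⟩ : F) ∈ Submodule.comap F.subtype ((So M p ⊓ Pw p k) ⊔ Pw p (k + 1)) := by
    show a ∈ (So M p ⊓ Pw p k) ⊔ Pw p (k + 1)
    have : a = x - z := by rw [← hxz]; abel
    rw [this]
    exact Submodule.sub_mem _ (Submodule.mem_sup_left hS) (Submodule.mem_sup_right hz)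
  rw [e'] at h1
  have h2 : a ∈ (So M p ⊓ Pw p (k + 1)) ⊔ Pw p (k + 1 + 1) := h1
  have h3 : a ∈ Pw p (k + 1) :=
    (sup_le inf_le_right (Pw_anti (Nat.le_succ _)) : (So M p ⊓ Pw p (k + 1)) ⊔
      Pw p (k + 1 + 1) ≤ Pw p (k + 1)) h2
  rw [← hxz]
  exact Submodule.add_mem _ h3 hz

theorem Bad.notfg {p : R} {F : Submodule R M} (hF : F.FG) (h : Bad p F) (hS : ¬ (So M p).FG)
    (m : ℕ) : ¬ (So M p ⊓ Pw p m).FG := by
  induction m with
  | zero =>
    intro hfg
    apply hS
    have : So M p ⊓ Pw p 0 = So M p := inf_eq_left.2 fun x _ => mem_Pw.2 ⟨x, by simp⟩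
    rwa [this] at hfg
  | succ m ih =>
    intro hfg
    apply ih
    refine Submodule.fg_of_fg_map_of_fg_inf_ker (Pw p (m + 1)).mkQ ?_ ?_
    · refine fg_of_le (N' := F.map (Pw p (m + 1)).mkQ) ?_ (hF.map _)
      rintro _ ⟨x, hx, rfl⟩
      obtain ⟨a, ha, z, hz, hxz⟩ := Submodule.mem_sup.1 (h.le m hx)
      refine ⟨a, ha, ?_⟩
      rw [← hxz, map_add]
      have : (Pw p (m + 1)).mkQ z = 0 := (Submodule.Quotient.mk_eq_zero _).2 hz
      rw [this, add_zero]
    · rw [Submodule.ker_mkQ, inf_assoc, inf_eq_right.2 (Pw_anti (Nat.le_succ m))]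
      exact hfg

/-- A sequence outside the previous spans. -/
theorem exists_seq {T : Submodule R M} (hT : ¬ T.FG) : ∃ e : ℕ → M, (∀ n, e n ∈ T) ∧
    ∀ n, e n ∉ span R (e '' {i | i < n}) := by
  classical
  have h : ∀ s : Finset M, ∃ y ∈ T, (∀ x ∈ s, x ∈ T) → y ∉ span R (s : Set M) := by
    intro s
    by_cases hs : ∀ x ∈ s, x ∈ T
    · by_contra hcon
      push Not at hcon
      apply hT
      refine ⟨s, le_antisymm (Submodule.span_le.2 fun x hx => hs x hx) fun y hy => ?_⟩
      exact (hcon y hy).2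
    · exact ⟨0, T.zero_mem, fun h => absurd h hs⟩
  choose nx h1 h2 using h
  let s : ℕ → Finset M := fun n => Nat.rec ∅ (fun _ s => insert (nx s) s) n
  have hs : ∀ n, s (n + 1) = insert (nx (s n)) (s n) := fun n => rfl
  have hsT : ∀ n, ∀ x ∈ s n, x ∈ T := by
    intro n
    induction n with
    | zero => intro x hx; exact absurd hx (Finset.notMem_empty x)
    | succ n ih =>
      intro x hx
      rw [hs] at hx
      rcases Finset.mem_insert.1 hx with rfl | hx
      · exact h1 _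
      · exact ih x hx
  have hmem : ∀ n i, i < n → nx (s i) ∈ s n := by
    intro n
    induction n with
    | zero => intro i hi; omega
    | succ n ih =>
      intro i hi
      rw [hs]
      rcases (Nat.lt_succ_iff_lt_or_eq.1 hi) with h | rfl
      · exact Finset.mem_insert_of_mem (ih i h)
      · exact Finset.mem_insert_self _ _
  refine ⟨fun n => nx (s n), fun n => h1 _, fun n hn => h2 (s n) (hsT n) ?_⟩
  refine Submodule.span_mono ?_ hn
  rintro _ ⟨i, hi, rfl⟩
  exact hmem n i hi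

variable {p : R} (hp : Prime p)

include hp in
theorem indep {e : ℕ → M} (h1 : ∀ n, p • e n = 0) (h2 : ∀ n, e n ∉ span R (e '' {i | i < n}))
    (s : Finset ℕ) (c : ℕ → R) (h : ∑ i ∈ s, c i • e i = 0) : ∀ i ∈ s, p ∣ c i := by
  classical
  by_contra hcon
  push Not at hcon
  have hne : (s.filter fun i => ¬ p ∣ c i).Nonempty := by
    obtain ⟨i, hi, hi'⟩ := hcon
    exact ⟨i, Finset.mem_filter.2 ⟨hi, hi'⟩⟩
  obtain ⟨hn1, hn2⟩ := Finset.mem_filter.1 (Finset.max'_mem _ hne)
  set n := (s.filter fun i => ¬ p ∣ c i).max' hne with hn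
  have h3 : ∀ i ∈ s, n < i → c i • e i = 0 := by
    intro i hi hni
    have : p ∣ c i := by
      by_contra hnd
      exact absurd (Finset.le_max' _ i (Finset.mem_filter.2 ⟨hi, hnd⟩)) (not_le.2 hni)
    obtain ⟨d, hd⟩ := this
    rw [hd, mul_comm, mul_smul, h1, smul_zero]
  have h4 : c n • e n ∈ span R (e '' {i | i < n}) := by
    have h5 : c n • e n = - ∑ i ∈ s.erase n, c i • e i := by
      rw [← Finset.add_sum_erase s _ hn1] at h
      exact eq_neg_of_add_eq_zero_left h
    rw [h5]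
    refine Submodule.neg_mem _ (Submodule.sum_mem _ fun i hi => ?_)
    obtain ⟨hi1, hi2⟩ := Finset.mem_erase.1 hi
    rcases lt_or_gt_of_ne hi1 with h6 | h6
    · exact Submodule.smul_mem _ _ (Submodule.subset_span ⟨i, h6, rfl⟩)
    · rw [h3 i hi2 h6]
      exact Submodule.zero_mem _
  obtain ⟨a, b, hab⟩ := bezout hp hn2 1
  apply h2 n
  have : e n = a • (c n • e n) := by
    rw [← mul_smul]
    have h6 : (a * c n + b * p ^ 1) • e n = e n := by rw [hab, one_smul]
    rw [add_smul, pow_one, mul_smul b, h1, smul_zero, add_zero] at h6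
    exact h6.symm
  rw [this]
  exact Submodule.smul_mem _ _ h4

/-- A system of transvections. -/
structure Sys (R M : Type) [CommRing R] [AddCommGroup M] [Module R M] (l : ℕ) where
  e : ℕ → M
  t : ℕ → ℕ → M →ₗ[R] M
  ind : ∀ (s : Finset ℕ) (n : ℕ → ℤ), ∑ i ∈ s, n i • e i = 0 → ∀ i ∈ s, (l : ℤ) ∣ n i
  sq : ∀ m j, m < j → ∀ x, t m j (t m j x) = 0
  te : ∀ m j, m < j → t m j (e m) = e j
  te' : ∀ m j i, m < j → i ≠ m → t m j (e i) = 0
  fin : ∀ x, ∃ N, ∀ m j, N ≤ m → m < j → t m j x = 0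

include hp in
/-- The residue characteristic. -/
theorem exists_l : ∃ l : ℕ, 2 ≤ l ∧ ∀ n : ℤ, p ∣ (n : R) → (l : ℤ) ∣ n := by
  let I : Ideal ℤ := (Ideal.span {p}).comap (Int.castRingHom R)
  obtain ⟨a, ha⟩ := (IsPrincipalIdealRing.principal I).principal
  have hmem : ∀ n : ℤ, p ∣ (n : R) ↔ a ∣ n := by
    intro n
    have h1 : n ∈ I ↔ p ∣ (n : R) := by
      show (Int.castRingHom R n) ∈ Ideal.span {p} ↔ _
      rw [Ideal.mem_span_singleton]
      rfl
    rw [← h1, ha]
    exact Ideal.mem_span_singleton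
  by_cases h0 : a = 0
  · refine ⟨2, le_rfl, fun n hn => ?_⟩
    have := (hmem n).1 hn
    rw [h0, zero_dvd_iff] at this
    rw [this]
    exact dvd_zero _
  · refine ⟨a.natAbs, ?_, fun n hn => ?_⟩
    · have h1 : a.natAbs ≠ 1 := by
        intro h1
        have h2 : a ∣ 1 := by
          rcases Int.natAbs_eq_iff.1 h1 with h | h
          · rw [h]; exact ⟨1, by norm_num⟩
          · rw [h]; exact ⟨-1, by norm_num⟩
        have h3 := (hmem 1).2 h2
        rw [Int.cast_one] at h3
        exact hp.not_isUnit (isUnit_of_dvd_one h3)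
      have h2 : a.natAbs ≠ 0 := Int.natAbs_ne_zero.2 h0
      omega
    · rw [Int.natAbs_dvd]
      exact (hmem n).1 hn

end Pool.Agent.H669.TM
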