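import Pool.Agent.H669.TM.SysB

set_option autoImplicit false
set_option linter.unusedSectionVars false

/-!
The case of infinitely many cyclic direct summands.
-/

namespace Pool.Agent.H669.TM

open Submodule

variable {R : Type} [CommRing R] [IsDomain R] [IsPrincipalIdealRing R] {M : Type}
  [AddCommGroup M] [Module R M]

/-- approximate decompositions -/
def St (R M : Type) [CommRing R] [AddCommGroup M] [Module R M] : Type :=
  {s : (M →ₗ[R] M) × Submodule R M //
    (∀ x, s.1 (s.1 x) = s.1 x) ∧ (∀ x, x - s.1 x ∈ s.2) ∧ s.2.FG}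

theorem St.step {p : R} (hp : Prime p) (hA : ∀ F : Submodule R M, F.FG → ¬ Bad p F)
    (s : St R M) (x : M) : ∃ (s' : St R M) (k : ℕ) (y : M) (ρ : M →ₗ[R] Pr hp),
    (∀ z ∈ s.1.2, ρ z = 0) ∧ s.1.2 ≤ s'.1.2 ∧ x ∈ s'.1.2 ∧ y ∈ s'.1.2 ∧ s.1.1 y = y ∧
    (∀ z, s.1.1 (s'.1.1 z) = s'.1.1 z) ∧ (∀ z, ρ (s'.1.1 z) = 0) ∧ p ^ (k + 1) • y = 0 ∧
    ρ y = u hp (k + 1) ∧ ∀ z, p ^ (k + 1) • ρ z = 0 := by
  obtain ⟨⟨q, F⟩, h1, h2, h3⟩ := s
  have h4 := hA F h3
  unfold Bad at h4
  push Not at h4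
  obtain ⟨k, y0, h5, h6⟩ := h4
  simp only at h1 h2 h3 ⊢
  have h7 : p ^ (k + 1) • q y0 = 0 := by rw [← map_smul, h5, map_zero]
  have h8 : p ^ k • q y0 ∉ F ⊔ Pw p (k + 1) := by
    intro h
    apply h6
    have : p ^ k • y0 = p ^ k • q y0 + p ^ k • (y0 - q y0) := by
      rw [← smul_add, add_sub_cancel]
    rw [this]
    exact Submodule.add_mem _ h (Submodule.mem_sup_left (Submodule.smul_mem _ _ (h2 y0)))
  obtain ⟨ρ, h9, h10⟩ := exists_functional hp (F ⊔ Pw p (k + 1)) (q y0) k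
    (by rw [h7]; exact Submodule.zero_mem _) h8
  have h11 : ∀ z, p ^ (k + 1) • ρ z = 0 := by
    intro z
    rw [← map_smul]
    exact h9 _ (Submodule.mem_sup_right (mem_Pw.2 ⟨z, rfl⟩))
  have h12 : ∀ z ∈ F, ρ z = 0 := fun z hz => h9 z (Submodule.mem_sup_left hz)
  obtain ⟨τ, hτ⟩ := exists_tau hp (k + 1) ρ h11 (q y0) h7
  have hτq : ∀ z, ∃ c : R, ρ z = c • u hp (k + 1) ∧ τ z = c • q y0 := by
    intro z
    obtain ⟨c, hc⟩ := exists_smul_u hp (h11 z)
    exact ⟨c, hc, hτ z c hc⟩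
  have hqτ : ∀ z, q (τ z) = τ z := by
    intro z
    obtain ⟨c, -, hc⟩ := hτq z
    rw [hc, map_smul, h1]
  have hρτ : ∀ z, ρ (τ z) = ρ z := by
    intro z
    obtain ⟨c, hc, hc'⟩ := hτq z
    rw [hc', map_smul, h10, hc]
  have hτ0 : ∀ z, ρ z = 0 → τ z = 0 := by
    intro z hz
    have := hτ z 0 (by rw [hz, zero_smul])
    rw [this, zero_smul]
  have hρq : ∀ z, ρ (q z) = ρ z := by
    intro z
    have := h12 _ (h2 z)
    rw [map_sub, sub_eq_zero] at this
    exact this.symm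
  have hρ' : ∀ z, ρ ((q - τ) z) = 0 := by
    intro z
    rw [LinearMap.sub_apply, map_sub, hρq, hρτ, sub_self]
  have hq' : ∀ z, q ((q - τ) z) = (q - τ) z := by
    intro z
    rw [LinearMap.sub_apply, map_sub, h1, hqτ]
  refine ⟨⟨(q - τ, F ⊔ (span R {q y0} ⊔ span R {x})), ?_, ?_, ?_⟩, k, q y0, ρ, h12, le_sup_left,
    Submodule.mem_sup_right (Submodule.mem_sup_right (Submodule.mem_span_singleton_self x)),
    Submodule.mem_sup_right (Submodule.mem_sup_left (Submodule.mem_span_singleton_self _)),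
    h1 _, hq', hρ', h7, h10, h11⟩
  · intro z
    show (q - τ) ((q - τ) z) = (q - τ) z
    rw [LinearMap.sub_apply q τ ((q - τ) z), hq', hτ0 _ (hρ' z), sub_zero]
  · intro z
    show z - (q - τ) z ∈ F ⊔ (span R {q y0} ⊔ span R {x})
    have : z - (q - τ) z = (z - q z) + τ z := by rw [LinearMap.sub_apply]; abel
    rw [this]
    obtain ⟨c, -, hc⟩ := hτq z
    refine Submodule.add_mem _ (Submodule.mem_sup_left (h2 z)) ?_
    rw [hc]
    exact Submodule.smul_mem _ _
      (Submodule.mem_sup_right (Submodule.mem_sup_left (Submodule.mem_span_singleton_self _)))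
  · exact h3.sup ((fg_span_singleton _).sup (fg_span_singleton _))

theorem exists_sysA [Countable M] {p : R} (hp : Prime p)
    (hA : ∀ F : Submodule R M, F.FG → ¬ Bad p F) : ∃ l : ℕ, 2 ≤ l ∧ Nonempty (Sys R M l) := by
  classical
  obtain ⟨x, hx⟩ := exists_surjective_nat M
  choose nx K Y ρ a1 a2 a3 a4 a5 a6 a7 a8 a9 a10 using St.step (M := M) hp hA
  let s : ℕ → St R M := fun n => Nat.rec
    ⟨(LinearMap.id, ⊥), fun x => rfl, fun x => by simp, Submodule.fg_bot⟩
    (fun n s => nx s (x n)) n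
  have hs : ∀ n, s (n + 1) = nx (s n) (x n) := fun n => rfl
  have hmono : ∀ m n, m ≤ n → (s m).1.2 ≤ (s n).1.2 := by
    intro m n hmn
    induction hmn with
    | refl => exact le_rfl
    | step _ ih => exact ih.trans (by rw [hs]; exact a2 _ _)
  have hcomp : ∀ m n, m ≤ n → ∀ z, (s m).1.1 ((s n).1.1 z) = (s n).1.1 z := by
    intro m n hmn
    induction hmn with
    | refl => exact (s m).2.1
    | step _ ih =>
      intro z
      rw [hs, ← a6, ih]
  let y : ℕ → M := fun n => Y (s n) (x n)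
  let k : ℕ → ℕ := fun n => K (s n) (x n)
  let r : ℕ → M →ₗ[R] Pr hp := fun n => ρ (s n) (x n)
  have hfin : ∀ n m, n < m → r m (x n) = 0 := by
    intro n m hnm
    refine a1 (s m) (x m) _ (hmono (n + 1) m hnm ?_)
    rw [hs]
    exact a3 _ _
  have hlt : ∀ n m, n < m → r m (y n) = 0 := by
    intro n m hnm
    refine a1 (s m) (x m) _ (hmono (n + 1) m hnm ?_)
    rw [hs]
    exact a4 _ _
  have hgt : ∀ n m, m < n → r m (y n) = 0 := by
    intro n m hmn
    have h1 : (s n).1.1 (y n) = y n := a5 (s n) (x n)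
    have h2 : (s (m + 1)).1.1 (y n) = y n := by
      rw [← h1, hcomp (m + 1) n hmn]
    rw [← h2, hs]
    exact a7 (s m) (x m) _
  have hyk : ∀ n, p ^ (k n + 1) • y n = 0 := fun n => a8 _ _
  have hry : ∀ n, r n (y n) = u hp (k n + 1) := fun n => a9 _ _
  have hrk : ∀ n z, p ^ (k n + 1) • r n z = 0 := fun n z => a10 _ _ z
  -- a subsequence
  obtain ⟨g, hg⟩ : ∃ g : ℕ ↪o ℕ, ∀ m n, m < n → k (g m) ≤ k (g n) := by
    obtain ⟨g, hg | hg⟩ := exists_increasing_or_nonincreasing_subseq (fun a b : ℕ => b < a) k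
    · exfalso
      have h1 : ∀ n, k (g n) + n ≤ k (g 0) := by
        intro n
        induction n with
        | zero => simp
        | succ n ih =>
          have := hg n (n + 1) (Nat.lt_succ_self n)
          omega
      have := h1 (k (g 0) + 1)
      omega
    · exact ⟨g, fun m n hmn => not_lt.1 (hg m n hmn)⟩
  have hτ : ∀ m j, ∃ τ : M →ₗ[R] M, m < j → ∀ (z : M) (c : R), r (g m) z = c • u hp (k (g m) + 1) →
      τ z = c • (p ^ (k (g j) - k (g m)) • y (g j)) := by
    intro m j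
    by_cases hmj : m < j
    · obtain ⟨τ, hτ⟩ := exists_tau hp (k (g m) + 1) (r (g m)) (hrk (g m))
        (p ^ (k (g j) - k (g m)) • y (g j)) (by
          rw [← mul_smul, ← pow_add]
          have : k (g m) + 1 + (k (g j) - k (g m)) = k (g j) + 1 := by
            have := hg m j hmj
            omega
          rw [this]
          exact hyk _)
      exact ⟨τ, fun _ => hτ⟩
    · exact ⟨0, fun h => absurd h hmj⟩
  choose τ hτ using hτ
  have hτ0 : ∀ m j, m < j → ∀ z, r (g m) z = 0 → τ m j z = 0 := by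
    intro m j hmj z hz
    rw [hτ m j hmj z 0 (by rw [hz, zero_smul]), zero_smul]
  have hne : ∀ m j, m ≠ j → r (g m) (y (g j)) = 0 := by
    intro m j hmj
    rcases lt_or_gt_of_ne hmj with h | h
    · exact hgt _ _ (g.lt_iff_lt.2 h)
    · exact hlt _ _ (g.lt_iff_lt.2 h)
  obtain ⟨l, hl2, hl⟩ := exists_l hp
  refine ⟨l, hl2, ⟨⟨fun n => p ^ k (g n) • y (g n), τ, ?_, ?_, ?_, ?_, ?_⟩⟩⟩
  · intro t n hn i hi
    apply hl
    have hn' : ∑ i ∈ t, (n i : R) • (p ^ k (g i) • y (g i)) = 0 := by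
      rw [← hn]
      exact Finset.sum_congr rfl fun i _ => Int.cast_smul_eq_zsmul R (n i) _
    have h1 := congrArg (r (g i)) hn'
    rw [map_sum, map_zero] at h1
    rw [Finset.sum_eq_single i] at h1
    · rw [map_smul, map_smul, hry, add_comm, pow_u hp (k (g i)) 1] at h1
      have := dvd_of_smul_u hp h1
      rwa [pow_one] at this
    · intro j _ hji
      rw [map_smul, map_smul, hne i j (Ne.symm hji), smul_zero, smul_zero]
    · intro h
      exact absurd hi h
  · intro m j hmj z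
    obtain ⟨c, hc⟩ := exists_smul_u hp (hrk (g m) z)
    rw [hτ m j hmj z c hc, map_smul, map_smul, hτ0 m j hmj _ (hne m j hmj.ne), smul_zero, smul_zero]
  · intro m j hmj
    show τ m j (p ^ k (g m) • y (g m)) = p ^ k (g j) • y (g j)
    rw [map_smul, hτ m j hmj _ 1 (by rw [hry, one_smul]), one_smul, ← mul_smul, ← pow_add]
    have := hg m j hmj
    congr 2
    omega
  · intro m j i hmj hi
    show τ m j (p ^ k (g i) • y (g i)) = 0
    rw [map_smul, hτ0 m j hmj _ (hne m i (Ne.symm hi)), smul_zero]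
  · intro z
    obtain ⟨n, rfl⟩ := hx z
    refine ⟨n + 1, fun m j hm hmj => hτ0 m j hmj _ (hfin _ _ ?_)⟩
    have h1 : m ≤ g m := g.strictMono.le_apply
    omega

/-- **Transvections.** -/
theorem exists_sys [Countable M] (ht : Tors R M) {p : R} (hp : Prime p) (hS : ¬ (So M p).FG) :
    ∃ l : ℕ, 2 ≤ l ∧ Nonempty (Sys R M l) := by
  by_cases hA : ∀ F : Submodule R M, F.FG → ¬ Bad p F
  · exact exists_sysA hp hA
  · push Not at hA
    obtain ⟨F, hF, hB⟩ := hA
    exact exists_sysB ht hp hS hF hB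

end Pool.Agent.H669.TM
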