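import Pool.Agent.H669.TM.Sets
import Pool.Agent.H669.TM.SysA

set_option autoImplicit false
set_option linter.unusedSectionVars false

/-!
The group of automorphisms which preserve the integral span of a system of transvections.
-/

namespace Pool.Agent.H669.TM

open Submodule

variable {R : Type} [CommRing R] {M : Type} [AddCommGroup M] [Module R M] {l : ℕ}

/-- integral combinations -/
noncomputable def Jm (S : Sys R M l) : (ℕ →₀ ℤ) →ₗ[ℤ] M := Finsupp.linearCombination ℤ S.e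

/-- the integral span -/
noncomputable def Vm (S : Sys R M l) : Submodule ℤ M := LinearMap.range (Jm S)

theorem Jm_single (S : Sys R M l) (i : ℕ) (a : ℤ) : Jm S (Finsupp.single i a) = a • S.e i :=
  Finsupp.linearCombination_single ℤ a i

theorem Jm_dvd (S : Sys R M l) {n : ℕ →₀ ℤ} (h : Jm S n = 0) (i : ℕ) : (l : ℤ) ∣ n i := by
  by_cases hi : i ∈ n.support
  · exact S.ind n.support n h i hi
  · rw [Finsupp.notMem_support_iff.1 hi]
    exact dvd_zero _

theorem e_mem (S : Sys R M l) (i : ℕ) : S.e i ∈ Vm S :=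
  ⟨Finsupp.single i 1, by rw [Jm_single, one_smul]⟩

/-- the class of an element -/
def Cl (S : Sys R M l) (v : M) : Set M := {x | ∃ w ∈ Vm S, x = v + (l : ℤ) • w}

theorem self_mem_Cl (S : Sys R M l) (v : M) : v ∈ Cl S v :=
  ⟨0, Submodule.zero_mem _, by rw [smul_zero, add_zero]⟩

theorem Cl_eq (S : Sys R M l) {v v' x : M} (h : x ∈ Cl S v) (h' : x ∈ Cl S v') :
    Cl S v = Cl S v' := by
  have key : ∀ v v' : M, x ∈ Cl S v → x ∈ Cl S v' → Cl S v ⊆ Cl S v' := by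
    rintro v v' ⟨w, hw, rfl⟩ ⟨w', hw', h'⟩ _ ⟨a, ha, rfl⟩
    refine ⟨w' - w + a, Submodule.add_mem _ (Submodule.sub_mem _ hw' hw) ha, ?_⟩
    have h1 : v = v' + (l : ℤ) • w' - (l : ℤ) • w := by rw [← h']; abel
    rw [smul_add, smul_sub, h1]
    abel
  exact Set.Subset.antisymm (key _ _ h h') (key _ _ h' h)

/-- automorphisms preserving the integral span -/
def Gd (S : Sys R M l) (g : M ≃ₗ[R] M) : Prop := ∀ v, v ∈ Vm S ↔ g v ∈ Vm S

theorem Cl_image (S : Sys R M l) {g : M ≃ₗ[R] M} (hg : Gd S g) (v : M) :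
    g '' Cl S v = Cl S (g v) := by
  ext x
  constructor
  · rintro ⟨_, ⟨w, hw, rfl⟩, rfl⟩
    exact ⟨g w, (hg w).1 hw, by rw [map_add, map_zsmul]⟩
  · rintro ⟨w, hw, rfl⟩
    refine ⟨v + (l : ℤ) • g.symm w, ⟨g.symm w, (hg _).2 (by rwa [LinearEquiv.apply_symm_apply]), rfl⟩,
      ?_⟩
    rw [map_add, map_zsmul, LinearEquiv.apply_symm_apply]

/-- transvections -/
def tv (S : Sys R M l) {m j : ℕ} (h : m < j) : M ≃ₗ[R] M :=
  LinearEquiv.ofLinearMap (LinearMap.id + S.t m j) (LinearMap.id - S.t m j)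
    (by
      ext x
      simp only [LinearMap.comp_apply, LinearMap.add_apply, LinearMap.sub_apply,
        LinearMap.id_apply, map_sub, S.sq m j h]
      abel)
    (by
      ext x
      simp only [LinearMap.comp_apply, LinearMap.add_apply, LinearMap.sub_apply,
        LinearMap.id_apply, map_add, S.sq m j h]
      abel)

theorem tv_apply (S : Sys R M l) {m j : ℕ} (h : m < j) (x : M) : tv S h x = x + S.t m j x := rfl

theorem tv_symm_apply (S : Sys R M l) {m j : ℕ} (h : m < j) (x : M) :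
    (tv S h).symm x = x - S.t m j x := rfl

theorem t_J (S : Sys R M l) {m j : ℕ} (h : m < j) (n : ℕ →₀ ℤ) :
    S.t m j (Jm S n) = n m • S.e j := by
  induction n using Finsupp.induction_linear with
  | zero => rw [map_zero, map_zero, Finsupp.coe_zero, Pi.zero_apply, zero_smul]
  | add f g hf hg => rw [map_add, map_add, hf, hg, Finsupp.add_apply, add_smul]
  | single i a =>
    rw [Jm_single, map_zsmul]
    by_cases hi : i = m
    · subst hi
      rw [S.te i j h, Finsupp.single_eq_same]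
    · rw [S.te' m j i h hi, smul_zero, Finsupp.single_apply, if_neg hi, zero_smul]

theorem t_V (S : Sys R M l) {m j : ℕ} (h : m < j) {v : M} (hv : v ∈ Vm S) : S.t m j v ∈ Vm S := by
  obtain ⟨n, rfl⟩ := hv
  rw [t_J S h]
  exact Submodule.smul_mem _ _ (e_mem S j)

theorem tv_good (S : Sys R M l) {m j : ℕ} (h : m < j) : Gd S (tv S h) := by
  intro v
  rw [tv_apply]
  refine ⟨fun hv => Submodule.add_mem _ hv (t_V S h hv), fun hv => ?_⟩
  have h1 := t_V S h hv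
  rw [map_add, S.sq m j h, add_zero] at h1
  have h2 := Submodule.sub_mem _ hv h1
  rwa [add_sub_cancel_right] at h2

/-- The orbits. -/
theorem orbit_fin (S : Sys R M l) (F : Set M) (N : ℕ)
    (hN : ∀ x ∈ F, ∀ m j, N ≤ m → m < j → S.t m j x = 0) (n : ℕ →₀ ℤ)
    (h : {B : Set M | ∃ g : M ≃ₗ[R] M, Gd S g ∧ (∀ x ∈ F, g x = x) ∧
      B = g '' Cl S (Jm S n)}.Finite) (m : ℕ) (hm : N ≤ m) : (l : ℤ) ∣ n m := by
  have hmem : ∀ j : {j : ℕ // m < j}, Cl S (Jm S n + n m • S.e j.1) ∈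
      {B : Set M | ∃ g : M ≃ₗ[R] M, Gd S g ∧ (∀ x ∈ F, g x = x) ∧ B = g '' Cl S (Jm S n)} := by
    rintro ⟨j, hj⟩
    refine ⟨tv S hj, tv_good S hj, fun x hx => ?_, ?_⟩
    · rw [tv_apply, hN x hx m j hm hj, add_zero]
    · rw [Cl_image S (tv_good S hj), tv_apply, t_J S hj]
  have : Infinite {j : ℕ // m < j} := (Set.Ioi_infinite m).to_subtype
  have := h.to_subtype
  obtain ⟨i, j, hij, he⟩ := Finite.exists_ne_map_eq_of_infinite
    (fun j : {j : ℕ // m < j} => (⟨_, hmem j⟩ : {B : Set M | ∃ g : M ≃ₗ[R] M, Gd S g ∧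
      (∀ x ∈ F, g x = x) ∧ B = g '' Cl S (Jm S n)}))
  have he' : Cl S (Jm S n + n m • S.e i.1) = Cl S (Jm S n + n m • S.e j.1) :=
    congrArg Subtype.val he
  have h1 := self_mem_Cl S (Jm S n + n m • S.e i.1)
  rw [he'] at h1
  obtain ⟨_, ⟨w, rfl⟩, hw⟩ := h1
  have hij' : i.1 ≠ j.1 := fun e => hij (Subtype.ext e)
  have h2 : Jm S (Finsupp.single i.1 (n m) - Finsupp.single j.1 (n m) - (l : ℤ) • w) = 0 := by
    rw [map_sub, map_sub, Jm_single, Jm_single, map_zsmul]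
    have := congrArg (fun x => x - Jm S n - n m • S.e j.1 - (l : ℤ) • Jm S w) hw
    have e1 : Jm S n + n m • S.e i.1 - Jm S n - n m • S.e j.1 - (l : ℤ) • Jm S w =
      n m • S.e i.1 - n m • S.e j.1 - (l : ℤ) • Jm S w := by abel
    have e2 : Jm S n + n m • S.e j.1 + (l : ℤ) • Jm S w - Jm S n - n m • S.e j.1 -
      (l : ℤ) • Jm S w = 0 := by abel
    rw [e1, e2] at this
    exact this
  have h3 := Jm_dvd S h2 i.1
  rw [Finsupp.sub_apply, Finsupp.sub_apply, Finsupp.smul_apply, Finsupp.single_eq_same,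
    Finsupp.single_apply, if_neg (Ne.symm hij'), sub_zero, smul_eq_mul] at h3
  have h4 := dvd_add h3 (dvd_mul_right (l : ℤ) (w i.1))
  rwa [sub_add_cancel] at h4

/-- elements divisible by `l` off a finite set -/
theorem Cl_few (S : Sys R M l) (hl : 2 ≤ l) (N : ℕ) :
    {A : Set M | ∃ n : ℕ →₀ ℤ, (∀ m, N ≤ m → (l : ℤ) ∣ n m) ∧ A = Cl S (Jm S n)}.Finite := by
  classical
  have : {A : Set M | ∃ n : ℕ →₀ ℤ, (∀ m, N ≤ m → (l : ℤ) ∣ n m) ∧ A = Cl S (Jm S n)} ⊆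
      Set.range (fun a : Fin N → Fin l => Cl S (∑ i : Fin N, ((a i : ℕ) : ℤ) • S.e i)) := by
    rintro _ ⟨n, hn, rfl⟩
    have hl0 : (0 : ℤ) < (l : ℤ) := by exact_mod_cast (by omega : 0 < l)
    have hr : ∀ i, 0 ≤ n i % (l : ℤ) ∧ n i % (l : ℤ) < l := fun i =>
      ⟨Int.emod_nonneg _ hl0.ne', Int.emod_lt_of_pos _ hl0⟩
    refine ⟨fun i => ⟨(n i % (l : ℤ)).toNat, by have := hr i; omega⟩, ?_⟩
    -- the quotient
    let q : ℕ →₀ ℤ := n.mapRange (fun a => a / (l : ℤ)) (Int.zero_ediv _)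
    let r : ℕ →₀ ℤ := n.mapRange (fun a => a % (l : ℤ)) (Int.zero_emod _)
    have hn' : n = r + (l : ℤ) • q := by
      ext i
      show n i = n i % (l : ℤ) + (l : ℤ) * (n i / (l : ℤ))
      exact (Int.emod_add_mul_ediv _ _).symm
    have hrJ : Jm S r = ∑ i : Fin N, ((((n i % (l : ℤ)).toNat : ℕ) : ℤ)) • S.e i := by
      have h1 : r.support ⊆ Finset.range N := by
        intro i hi
        rw [Finset.mem_range]
        by_contra hcon
        refine (Finsupp.mem_support_iff.1 hi) ?_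
        show n i % (l : ℤ) = 0
        exact Int.emod_eq_zero_of_dvd (hn i (not_lt.1 hcon))
      have h2 : Jm S r = ∑ i ∈ Finset.range N, r i • S.e i := by
        show Finsupp.linearCombination ℤ S.e r = _
        rw [Finsupp.linearCombination_apply]
        exact Finsupp.sum_of_support_subset _ h1 _ (fun i _ => zero_smul _ _)
      rw [h2, Finset.sum_range]
      refine Finset.sum_congr rfl fun i _ => ?_
      rw [Int.toNat_of_nonneg (hr i).1]
      rfl
    show Cl S (∑ i : Fin N, ((((n i % (l : ℤ)).toNat : ℕ) : ℤ)) • S.e i) = Cl S (Jm S n)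
    rw [← hrJ]
    refine Cl_eq S (x := Jm S n) ⟨Jm S q, ⟨q, rfl⟩, ?_⟩ (self_mem_Cl S _)
    conv_lhs => rw [hn']
    rw [map_add, map_zsmul]
  exact (Set.finite_range _).subset this

/-- **Generic colourings of modules.** -/
theorem exists_col_mod (S : Sys R M l) (hl : 2 ≤ l) (b : M ≃ ℕ) :
    (∃ col : ℕ → Option ℕ, (∀ n, ∃ m, col m = some n) ∧
      ∀ π : Equiv.Perm ℕ, ∃ g : M ≃ₗ[R] M, ∀ x, col (b (g x)) = (col (b x)).map π) ∧
    ∃ f : ℕ → ℕ, (∀ F : Finset ℕ, ∃ g : M ≃ₗ[R] M, ∀ x, b x ∈ F → b (g x) = f (b x)) ∧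
      ¬ Function.Surjective f := by
  classical
  let cj : (M ≃ₗ[R] M) → Equiv.Perm ℕ := fun g => b.symm.trans (g.toEquiv.trans b)
  have hcj : ∀ g x, cj g (b x) = b (g x) := by
    intro g x
    show b (g (b.symm (b x))) = b (g x)
    rw [Equiv.symm_apply_apply]
  let G : Subgroup (Equiv.Perm ℕ) :=
    { carrier := {σ | ∃ g : M ≃ₗ[R] M, Gd S g ∧ ∀ x, σ (b x) = b (g x)}
      mul_mem' := by
        rintro σ τ ⟨g, hg, h1⟩ ⟨h, hh, h2⟩
        refine ⟨h.trans g, fun v => (hh v).trans (hg (h v)), fun x => ?_⟩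
        show σ (τ (b x)) = b (g (h x))
        rw [h2, h1]
      one_mem' := ⟨LinearEquiv.refl R M, fun v => Iff.rfl, fun x => rfl⟩
      inv_mem' := by
        rintro σ ⟨g, hg, h1⟩
        refine ⟨g.symm, fun v => ?_, fun x => ?_⟩
        · have := hg (g.symm v)
          rw [LinearEquiv.apply_symm_apply] at this
          exact this.symm
        · rw [Equiv.Perm.inv_eq_iff_eq, h1, LinearEquiv.apply_symm_apply] }
  have hmemG : ∀ {g : M ≃ₗ[R] M}, Gd S g → cj g ∈ G := fun hg => ⟨_, hg, hcj _⟩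
  let C : Set (Set ℕ) := {A | ∃ n : ℕ →₀ ℤ, (¬ ∀ m, (l : ℤ) ∣ n m) ∧ A = b '' Cl S (Jm S n)}
  have himg : ∀ σ ∈ G, ∀ g : M ≃ₗ[R] M, (∀ x, σ (b x) = b (g x)) → ∀ A : Set M,
      σ '' (b '' A) = b '' (g '' A) := by
    intro σ _ g hg A
    rw [Set.image_image, Set.image_image]
    exact Set.image_congr fun x _ => hg x
  have horb : ∀ (F : Finset ℕ) (A : Set M),
      {B : Set ℕ | ∃ g ∈ G, (∀ x ∈ F, g x = x) ∧ B = g '' (b '' A)}.Finite →
      {B : Set M | ∃ g : M ≃ₗ[R] M, Gd S g ∧ (∀ x ∈ b ⁻¹' (F : Set ℕ), g x = x) ∧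
        B = g '' A}.Finite := by
    intro F A h
    refine Set.Finite.of_finite_image (f := fun B : Set M => b '' B) (h.subset ?_)
      (Set.injOn_of_injective (Set.image_injective.2 b.injective))
    rintro _ ⟨_, ⟨g, hg, hgF, rfl⟩, rfl⟩
    refine ⟨cj g, hmemG hg, fun x hx => ?_, (himg _ (hmemG hg) g (hcj g) A).symm⟩
    obtain ⟨y, rfl⟩ := b.surjective x
    rw [hcj, hgF y hx]
  have hNF : ∀ F : Finset ℕ, ∃ N, ∀ x ∈ b ⁻¹' (F : Set ℕ), ∀ m j, N ≤ m → m < j →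
      S.t m j x = 0 := by
    intro F
    choose N hN using S.fin
    refine ⟨F.sup fun k => N (b.symm k), fun x hx m j hm hmj => hN x m j ?_ hmj⟩
    have h1 : N (b.symm (b x)) ≤ F.sup fun k => N (b.symm k) :=
      Finset.le_sup (f := fun k => N (b.symm k)) hx
    rw [Equiv.symm_apply_apply] at h1
    exact h1.trans hm
  -- `C` is invariant
  have hCinv : ∀ g ∈ G, ∀ A ∈ C, g '' A ∈ C := by
    rintro σ hσ _ ⟨n, hn, rfl⟩
    obtain ⟨g, hg, h1⟩ := id hσ
    rw [himg σ hσ g h1, Cl_image S hg]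
    obtain ⟨n', hn'⟩ : g (Jm S n) ∈ Vm S := (hg _).1 ⟨n, rfl⟩
    refine ⟨n', fun hcon => hn fun m => ?_, by rw [hn']⟩
    -- `g⁻¹` maps multiples of `l` to multiples of `l`
    choose a ha using hcon
    have h2 : ∃ w ∈ Vm S, g (Jm S n) = (l : ℤ) • w := by
      let q : ℕ →₀ ℤ := n'.mapRange (fun a => a / (l : ℤ)) (Int.zero_ediv _)
      refine ⟨Jm S q, ⟨q, rfl⟩, ?_⟩
      rw [← hn', ← map_zsmul]
      congr 1
      ext i
      show n' i = (l : ℤ) * (n' i / (l : ℤ))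
      rw [Int.mul_ediv_cancel' ⟨a i, ha i⟩]
    obtain ⟨w, hw, h2⟩ := h2
    obtain ⟨z, hz⟩ : g.symm w ∈ Vm S := (hg _).2 (by rwa [LinearEquiv.apply_symm_apply])
    have h3 : Jm S (n - (l : ℤ) • z) = 0 := by
      rw [map_sub, map_zsmul, hz, sub_eq_zero]
      apply g.injective
      rw [h2, map_zsmul, LinearEquiv.apply_symm_apply]
    have h4 := Jm_dvd S h3 m
    rw [Finsupp.sub_apply, Finsupp.smul_apply, smul_eq_mul] at h4
    have h5 := dvd_add h4 (dvd_mul_right (l : ℤ) (z m))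
    rwa [sub_add_cancel] at h5
  have hcl : ∀ σ : Equiv.Perm ℕ, (∀ F : Finset ℕ, ∃ g : G, ∀ x ∈ F, g.1 x = σ x) → σ ∈ G := by
    -- closed
    intro σ hσ
    have hap : ∀ T : Finset M, ∃ g : M ≃ₗ[R] M, Gd S g ∧ ∀ x ∈ T, σ (b x) = b (g x) := by
      intro T
      obtain ⟨⟨τ, g, hg, h1⟩, h2⟩ := hσ (T.image b)
      refine ⟨g, hg, fun x hx => ?_⟩
      rw [← h1, ← h2 (b x) (Finset.mem_image_of_mem _ hx)]
    let e : M ≃ M := b.trans (σ.trans b.symm)
    have he : ∀ x (g : M ≃ₗ[R] M), σ (b x) = b (g x) → e x = g x := by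
      intro x g h
      show b.symm (σ (b x)) = g x
      rw [h, Equiv.symm_apply_apply]
    have hadd : ∀ x y, e (x + y) = e x + e y := by
      intro x y
      obtain ⟨g, -, h1⟩ := hap {x, y, x + y}
      rw [he x g (h1 x (by simp)), he y g (h1 y (by simp)), he (x + y) g (h1 _ (by simp)), map_add]
    have hsmul : ∀ (r : R) x, e (r • x) = r • e x := by
      intro r x
      obtain ⟨g, -, h1⟩ := hap {x, r • x}
      rw [he x g (h1 x (by simp)), he (r • x) g (h1 _ (by simp)), map_smul]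
    let g0 : M ≃ₗ[R] M := { e with map_add' := hadd, map_smul' := hsmul }
    refine ⟨g0, fun v => ?_, fun x => ?_⟩
    · obtain ⟨g, hg, h1⟩ := hap {v}
      have : g0 v = g v := he v g (h1 v (Finset.mem_singleton_self v))
      rw [this]
      exact hg v
    · show σ (b x) = b (b.symm (σ (b x)))
      rw [Equiv.apply_symm_apply]
  have hne : ∀ A ∈ C, A.Nonempty := by
    rintro _ ⟨n, -, rfl⟩
    exact ⟨b (Jm S n), Jm S n, self_mem_Cl S _, rfl⟩
  have hdis : ∀ A ∈ C, ∀ B ∈ C, ∀ x ∈ A, x ∈ B → A = B := by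
    rintro _ ⟨n, -, rfl⟩ _ ⟨n', -, rfl⟩ x ⟨y, hy, rfl⟩ ⟨y', hy', h⟩
    have := b.injective h
    subst this
    rw [Cl_eq S hy hy']
  have hacl : ∀ F : Finset ℕ, {A : Set ℕ | A ∈ C ∧
      {B : Set ℕ | ∃ g ∈ G, (∀ x ∈ F, g x = x) ∧ B = g '' A}.Finite}.Finite := by
    intro F
    obtain ⟨N, hN⟩ := hNF F
    refine ((Cl_few S hl N).image fun A => b '' A).subset ?_
    rintro _ ⟨⟨n, hn, rfl⟩, hfin⟩
    exact ⟨_, ⟨n, orbit_fin S _ N hN n (horb F _ hfin), rfl⟩, rfl⟩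
  have hacl0 : ∀ A ∈ C, ¬ {B : Set ℕ | ∃ g ∈ G, B = g '' A}.Finite := by
    rintro _ ⟨n, hn, rfl⟩ hfin
    refine hn fun m => orbit_fin S (b ⁻¹' ((∅ : Finset ℕ) : Set ℕ)) 0 (fun x hx => ?_) n
      (horb ∅ _ (hfin.subset ?_)) m (Nat.zero_le m)
    · exact absurd hx (Finset.notMem_empty (b x))
    · rintro _ ⟨g, hg, -, rfl⟩
      exact ⟨g, hg, rfl⟩
  have hCne : C.Nonempty := by
    refine ⟨_, Finsupp.single 0 1, fun h => ?_, rfl⟩
    have h1 := h 0
    rw [Finsupp.single_eq_same] at h1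
    have h2 := Int.le_of_dvd one_pos h1
    omega
  obtain ⟨⟨col, hc1, hc2⟩, f, hf1, hf2⟩ := sets G C hcl hne hdis hCinv hacl hacl0 hCne
  refine ⟨⟨col, hc1, fun π => ?_⟩, f, fun F => ?_, hf2⟩
  · obtain ⟨σ, ⟨g, -, h1⟩, h2⟩ := hc2 π
    exact ⟨g, fun x => by rw [← h1, h2]⟩
  · obtain ⟨σ, ⟨g, -, h1⟩, h2⟩ := hf1 F
    exact ⟨g, fun x hx => by rw [← h1, h2 _ hx]⟩

end Pool.Agent.H669.TM
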