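import Mathlib

set_option autoImplicit false
set_option linter.unusedSectionVars false

/-!
Injective modules over principal ideal domains, and the quasi-cyclic module at a prime.
-/

namespace Pool.Agent.H669.TM

open Submodule

variable {R : Type} [CommRing R] [IsDomain R] [IsPrincipalIdealRing R]

/-- divisible modules -/
def Dvb (R : Type) [CommRing R] (Q : Type) [AddCommGroup Q] [Module R Q] : Prop :=
  ∀ r : R, r ≠ 0 → ∀ x : Q, ∃ z, r • z = x

section

variable {Q : Type} [AddCommGroup Q] [Module R Q] {A B : Type} [AddCommGroup A] [Module R A]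
  [AddCommGroup B] [Module R B]

omit [IsDomain R] in
theorem baer_of_dvb (h : Dvb R Q) : Module.Baer R Q := by
  intro I g
  obtain ⟨a, ha⟩ := (IsPrincipalIdealRing.principal I).principal
  have haI : a ∈ I := by rw [ha]; exact Submodule.mem_span_singleton_self a
  by_cases h0 : a = 0
  · refine ⟨0, fun x hx => ?_⟩
    have hx0 : x = 0 := by
      rw [ha, h0] at hx
      simpa using hx
    subst hx0
    have : (⟨0, hx⟩ : I) = 0 := rfl
    rw [this, map_zero, map_zero]
  · obtain ⟨z, hz⟩ := h a h0 (g ⟨a, haI⟩)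
    refine ⟨LinearMap.toSpanSingleton R Q z, fun x hx => ?_⟩
    obtain ⟨c, rfl⟩ : ∃ c, c • a = x := by
      rw [ha] at hx
      exact Submodule.mem_span_singleton.1 hx
    rw [LinearMap.toSpanSingleton_apply, smul_assoc, hz, ← map_smul]
    rfl

omit [IsDomain R] [IsPrincipalIdealRing R] in
theorem ext_of_ker (hQ : Module.Baer R Q) (f : A →ₗ[R] B) (h : A →ₗ[R] Q)
    (hk : LinearMap.ker f ≤ LinearMap.ker h) : ∃ g : B →ₗ[R] Q, ∀ x, g (f x) = h x := by
  obtain ⟨g, hg⟩ := hQ.extension_property ((LinearMap.ker f).liftQ f le_rfl)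
    (LinearMap.ker_eq_bot.1 (Submodule.ker_liftQ_eq_bot _ _ _ le_rfl))
    ((LinearMap.ker f).liftQ h hk)
  refine ⟨g, fun x => ?_⟩
  have := LinearMap.congr_fun hg (Submodule.Quotient.mk x)
  simpa using this

end

/-! ### The quasi-cyclic module -/

/-- The localization at a prime element, as a submodule of the field of fractions. -/
def Rp {p : R} (hp : Prime p) : Submodule R (FractionRing R) where
  carrier := {x | ∃ s r : R, ¬ p ∣ s ∧ s • x = algebraMap R (FractionRing R) r}
  add_mem' := by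
    rintro x y ⟨s, r, hs, hx⟩ ⟨s', r', hs', hy⟩
    refine ⟨s * s', s' * r + s * r', fun h => ?_, ?_⟩
    · rcases hp.dvd_or_dvd h with h | h
      · exact hs h
      · exact hs' h
    · rw [smul_add, mul_smul, mul_smul, hy, smul_comm, hx, map_add, map_mul, map_mul,
        Algebra.smul_def, Algebra.smul_def]
  zero_mem' := ⟨1, 0, fun h => hp.not_isUnit (isUnit_of_dvd_one h), by simp⟩
  smul_mem' := by
    rintro c x ⟨s, r, hs, hx⟩
    refine ⟨s, c * r, hs, ?_⟩
    rw [smul_comm, hx, map_mul, Algebra.smul_def]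

/-- The quasi-cyclic module. -/
abbrev Pr {p : R} (hp : Prime p) : Type := FractionRing R ⧸ Rp hp

variable {p : R} (hp : Prime p)

/-- The class of `p⁻ᵏ`. -/
noncomputable def u (k : ℕ) : Pr hp := Submodule.Quotient.mk ((algebraMap R (FractionRing R) (p ^ k))⁻¹)

theorem Pr.dvb : Dvb R (Pr hp) := by
  intro r hr x
  obtain ⟨a, rfl⟩ := Submodule.Quotient.mk_surjective _ x
  refine ⟨Submodule.Quotient.mk ((algebraMap R (FractionRing R) r)⁻¹ * a), ?_⟩
  rw [← Submodule.Quotient.mk_smul, Algebra.smul_def, ← mul_assoc, mul_inv_cancel₀, one_mul]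
  rwa [ne_eq, IsFractionRing.to_map_eq_zero_iff]

include hp in
theorem alg_pow_ne (k : ℕ) : algebraMap R (FractionRing R) (p ^ k) ≠ 0 := by
  rw [ne_eq, IsFractionRing.to_map_eq_zero_iff]
  exact pow_ne_zero _ hp.ne_zero

theorem pow_u (i k : ℕ) : p ^ i • u hp (k + i) = u hp k := by
  unfold u
  rw [← Submodule.Quotient.mk_smul, Algebra.smul_def]
  congr 1
  rw [pow_add, map_mul, mul_inv, mul_comm, mul_assoc, inv_mul_cancel₀ (alg_pow_ne hp i), mul_one]

theorem u_zero : u hp 0 = 0 := by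
  unfold u
  rw [Submodule.Quotient.mk_eq_zero]
  exact ⟨1, 1, fun h => hp.not_isUnit (isUnit_of_dvd_one h), by simp⟩

theorem pow_u_self (k : ℕ) : p ^ k • u hp k = 0 := by
  have := pow_u hp k 0
  rw [zero_add, u_zero] at this
  exact this

theorem dvd_of_smul_u {k : ℕ} {r : R} (h : r • u hp k = 0) : p ^ k ∣ r := by
  unfold u at h
  rw [← Submodule.Quotient.mk_smul, Submodule.Quotient.mk_eq_zero] at h
  obtain ⟨s, t, hs, h⟩ := h
  rw [Algebra.smul_def, Algebra.smul_def, ← mul_assoc, ← map_mul] at h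
  have h1 : algebraMap R (FractionRing R) (s * r) =
      algebraMap R (FractionRing R) t * algebraMap R (FractionRing R) (p ^ k) := by
    rw [← h, mul_assoc, inv_mul_cancel₀ (alg_pow_ne hp k), mul_one]
  rw [← map_mul] at h1
  have h2 := IsFractionRing.injective R (FractionRing R) h1
  have h3 : p ^ k ∣ s * r := ⟨t, by rw [h2, mul_comm]⟩
  exact hp.pow_dvd_of_dvd_mul_left k hs h3

theorem smul_u_iff {k : ℕ} {r : R} : r • u hp k = 0 ↔ p ^ k ∣ r := by
  refine ⟨dvd_of_smul_u hp, ?_⟩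
  rintro ⟨c, rfl⟩
  rw [mul_comm, mul_smul, pow_u_self, smul_zero]

include hp in
/-- Bezout. -/
theorem bezout {s : R} (hs : ¬ p ∣ s) (k : ℕ) : ∃ a b : R, a * s + b * p ^ k = 1 := by
  have h : IsCoprime s (p ^ k) :=
    (((Irreducible.coprime_iff_not_dvd hp.irreducible).2 hs).symm).pow_right
  exact h

theorem exists_smul_u {k : ℕ} {x : Pr hp} (h : p ^ k • x = 0) : ∃ c : R, x = c • u hp k := by
  obtain ⟨a, rfl⟩ := Submodule.Quotient.mk_surjective _ x
  rw [← Submodule.Quotient.mk_smul, Submodule.Quotient.mk_eq_zero] at h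
  obtain ⟨s, t, hs, h⟩ := h
  obtain ⟨α, β, hab⟩ := bezout hp hs k
  refine ⟨α * t, ?_⟩
  unfold u
  rw [← Submodule.Quotient.mk_smul, ← sub_eq_zero, ← Submodule.Quotient.mk_sub,
    Submodule.Quotient.mk_eq_zero]
  have e : a - (α * t) • (algebraMap R (FractionRing R) (p ^ k))⁻¹ = β • (p ^ k • a) := by
    have h1 : (α * t) • (algebraMap R (FractionRing R) (p ^ k))⁻¹ = (α * s) • a := by
      rw [mul_smul, Algebra.smul_def t, ← h, mul_smul]
      congr 1
      rw [Algebra.smul_def s, Algebra.smul_def, Algebra.smul_def, mul_assoc]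
      congr 1
      rw [mul_comm (algebraMap R (FractionRing R) (p ^ k)), mul_assoc,
        mul_inv_cancel₀ (alg_pow_ne hp k), mul_one]
    rw [h1, ← mul_smul, sub_eq_iff_eq_add, ← add_smul, add_comm, hab, one_smul]
  rw [e]
  exact Submodule.smul_mem _ _ ⟨s, t, hs, h⟩

omit [IsPrincipalIdealRing R] in
theorem exists_split [WfDvdMonoid R] {r : R} (hr : r ≠ 0) (hp : Prime p) :
    ∃ (k : ℕ) (s : R), ¬ p ∣ s ∧ r = p ^ k * s :=
  WfDvdMonoid.max_power_factor hr hp.irreducible

theorem Pr.tors (x : Pr hp) : ∃ k, p ^ k • x = 0 := by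
  obtain ⟨a, rfl⟩ := Submodule.Quotient.mk_surjective _ x
  obtain ⟨c, d, hd, rfl⟩ := IsFractionRing.div_surjective (A := R) a
  have hd0 : d ≠ 0 := nonZeroDivisors.ne_zero hd
  obtain ⟨k, s, hs, hk⟩ := exists_split hd0 hp
  refine ⟨k, ?_⟩
  rw [← Submodule.Quotient.mk_smul, Submodule.Quotient.mk_eq_zero]
  refine ⟨s, c, hs, ?_⟩
  rw [← mul_smul, mul_comm s, ← hk, Algebra.smul_def, mul_div_cancel₀]
  rwa [ne_eq, IsFractionRing.to_map_eq_zero_iff]

section

variable {M : Type} [AddCommGroup M] [Module R M]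

/-- Functionals to the quasi-cyclic module can be used to define endomorphisms. -/
theorem exists_tau (k : ℕ) (ρ : M →ₗ[R] Pr hp) (hρ : ∀ x, p ^ k • ρ x = 0) (z : M)
    (hz : p ^ k • z = 0) : ∃ τ : M →ₗ[R] M, ∀ (x : M) (c : R), ρ x = c • u hp k → τ x = c • z := by
  let f : R →ₗ[R] Pr hp := LinearMap.toSpanSingleton R (Pr hp) (u hp k)
  let g : R →ₗ[R] M := LinearMap.toSpanSingleton R M z
  have hfg : LinearMap.ker f ≤ LinearMap.ker g := by
    intro r hr
    rw [LinearMap.mem_ker, LinearMap.toSpanSingleton_apply] at hr ⊢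
    obtain ⟨c, rfl⟩ := dvd_of_smul_u hp hr
    rw [mul_comm, mul_smul, hz, smul_zero]
  have hr : ∀ x, ρ x ∈ LinearMap.range f := by
    intro x
    obtain ⟨c, hc⟩ := exists_smul_u hp (hρ x)
    exact ⟨c, by rw [LinearMap.toSpanSingleton_apply, hc]⟩
  refine ⟨((LinearMap.ker f).liftQ g hfg) ∘ₗ
    (f.quotKerEquivRange.symm.toLinearMap ∘ₗ ρ.codRestrict (LinearMap.range f) hr), ?_⟩
  intro x c hc
  have h1 : ρ.codRestrict (LinearMap.range f) hr x = f.quotKerEquivRange (Submodule.Quotient.mk c) := by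
    apply Subtype.ext
    show ρ x = f c
    rw [hc, LinearMap.toSpanSingleton_apply]
  rw [LinearMap.comp_apply, LinearMap.comp_apply, h1]
  show (LinearMap.ker f).liftQ g hfg (f.quotKerEquivRange.symm (f.quotKerEquivRange
    (Submodule.Quotient.mk c))) = c • z
  rw [LinearEquiv.symm_apply_apply, Submodule.liftQ_apply, LinearMap.toSpanSingleton_apply]

/-- Separation by a functional. -/
theorem exists_functional (N : Submodule R M) (y : M) (k : ℕ) (h1 : p ^ (k + 1) • y ∈ N)
    (h2 : p ^ k • y ∉ N) : ∃ ρ : M →ₗ[R] Pr hp, (∀ x ∈ N, ρ x = 0) ∧ ρ y = u hp (k + 1) := by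
  let f : R →ₗ[R] (M ⧸ N) := LinearMap.toSpanSingleton R (M ⧸ N) (N.mkQ y)
  let g : R →ₗ[R] Pr hp := LinearMap.toSpanSingleton R (Pr hp) (u hp (k + 1))
  have hfg : LinearMap.ker f ≤ LinearMap.ker g := by
    intro r hr
    rw [LinearMap.mem_ker, LinearMap.toSpanSingleton_apply] at hr ⊢
    rw [← map_smul, Submodule.mkQ_apply, Submodule.Quotient.mk_eq_zero] at hr
    rw [smul_u_iff]
    by_cases hr0 : r = 0
    · rw [hr0]; exact dvd_zero _
    obtain ⟨i, s, hs, rfl⟩ := exists_split hr0 hp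
    by_contra hcon
    have hi : i ≤ k := by
      by_contra hik
      exact hcon ((pow_dvd_pow p (by omega)).mul_right s)
    obtain ⟨a, b, hab⟩ := bezout hp hs (k + 1)
    apply h2
    have e : p ^ k • y = (a * p ^ (k - i)) • ((p ^ i * s) • y) + (b * p ^ k) • (p ^ (k + 1) • y) := by
      rw [← mul_smul, ← mul_smul, ← add_smul]
      congr 1
      have h3 : p ^ (k - i) * p ^ i = p ^ k := by rw [← pow_add]; congr 1; omega
      calc p ^ k = (a * s + b * p ^ (k + 1)) * p ^ k := by rw [hab, one_mul]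
        _ = a * p ^ (k - i) * (p ^ i * s) + b * p ^ k * p ^ (k + 1) := by
            rw [← h3]; ring
    rw [e]
    exact N.add_mem (N.smul_mem _ hr) (N.smul_mem _ h1)
  obtain ⟨ρ, hρ⟩ := ext_of_ker (baer_of_dvb (Pr.dvb hp)) f g hfg
  refine ⟨ρ ∘ₗ N.mkQ, fun x hx => ?_, ?_⟩
  · rw [LinearMap.comp_apply, Submodule.mkQ_apply, (Submodule.Quotient.mk_eq_zero N).2 hx, map_zero]
  · have := hρ 1
    rw [LinearMap.toSpanSingleton_apply, LinearMap.toSpanSingleton_apply, one_smul, one_smul] at this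
    exact this

end

end Pool.Agent.H669.TM
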