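import Pool.Agent.H669.LO.Limit

set_option autoImplicit false
set_option linter.unusedSectionVars false

/-!
Generic colourings for a closed permutation group acting on a family of disjoint sets.
-/

namespace Pool.Agent.H669.TM

open Set
open Pool.Agent.H669.LO

variable (G : Subgroup (Equiv.Perm ℕ)) (C : Set (Set ℕ))

/-- the action on the members of an invariant family -/
@[reducible] def setAction (hinv : ∀ g ∈ G, ∀ A ∈ C, g '' A ∈ C) :
    MulAction G {A : Set ℕ // A ∈ C} where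
  smul g A := ⟨g.1 '' A.1, hinv g.1 g.2 A.1 A.2⟩
  one_smul A := Subtype.ext (by
    show (1 : Equiv.Perm ℕ) '' A.1 = A.1
    simp)
  mul_smul g h A := Subtype.ext (by
    show (g.1 * h.1 : Equiv.Perm ℕ) '' A.1 = g.1 '' (h.1 '' A.1)
    rw [← Set.image_comp]
    rfl)

theorem sets (hcl : ∀ σ : Equiv.Perm ℕ, (∀ F : Finset ℕ, ∃ g : G, ∀ x ∈ F, g.1 x = σ x) → σ ∈ G)
    (hne : ∀ A ∈ C, A.Nonempty) (hdis : ∀ A ∈ C, ∀ B ∈ C, ∀ x ∈ A, x ∈ B → A = B)
    (hinv : ∀ g ∈ G, ∀ A ∈ C, g '' A ∈ C)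
    (hacl : ∀ F : Finset ℕ, {A : Set ℕ | A ∈ C ∧
      {B : Set ℕ | ∃ g ∈ G, (∀ x ∈ F, g x = x) ∧ B = g '' A}.Finite}.Finite)
    (hacl0 : ∀ A ∈ C, ¬ {B : Set ℕ | ∃ g ∈ G, B = g '' A}.Finite) (hC : C.Nonempty) :
    (∃ col : ℕ → Option ℕ, (∀ n, ∃ m, col m = some n) ∧
      ∀ π : Equiv.Perm ℕ, ∃ g ∈ G, ∀ m, col (g m) = (col m).map π) ∧
    ∃ f : ℕ → ℕ, (∀ F : Finset ℕ, ∃ g ∈ G, ∀ x ∈ F, g x = f x) ∧ ¬ Function.Surjective f := by
  classical
  let _ := setAction G C hinv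
  have hsm : ∀ (g : G) (A : {A : Set ℕ // A ∈ C}), (g • A).1 = g.1 '' A.1 := fun _ _ => rfl
  have horb : ∀ (F : Finset ℕ) (A : {A : Set ℕ // A ∈ C}),
      (MulAction.orbit (Fx G F) A).Finite →
      {B : Set ℕ | ∃ g ∈ G, (∀ x ∈ F, g x = x) ∧ B = g '' A.1}.Finite := by
    intro F A h
    refine (h.image Subtype.val).subset ?_
    rintro _ ⟨g, hg, hgF, rfl⟩
    exact ⟨(⟨⟨g, hg⟩, hgF⟩ : Fx G F) • A, ⟨_, rfl⟩, rfl⟩
  have ha : ∀ F : Finset ℕ, (acl (G := G) {A : Set ℕ // A ∈ C} F).Finite := by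
    intro F
    refine Set.Finite.of_finite_image ((hacl F).subset ?_) Subtype.val_injective.injOn
    rintro _ ⟨A, hA, rfl⟩
    exact ⟨A.2, horb F A hA⟩
  have ha0 : ∀ A : {A : Set ℕ // A ∈ C}, A ∉ acl (G := G) {A : Set ℕ // A ∈ C} ∅ := by
    intro A hA
    refine hacl0 A.1 A.2 ((horb ∅ A hA).subset ?_)
    rintro _ ⟨g, hg, rfl⟩
    exact ⟨g, hg, fun x hx => absurd hx (Finset.notMem_empty x), rfl⟩
  have hfix : ∀ (A : {A : Set ℕ // A ∈ C}) (x : ℕ), x ∈ A.1 → ∀ g : G, g.1 x = x → g • A = A := by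
    intro A x hx g hg
    apply Subtype.ext
    rw [hsm]
    exact hdis _ (hinv g.1 g.2 A.1 A.2) _ A.2 x ⟨x, hx, hg⟩ hx
  constructor
  · have hcount : Countable {A : Set ℕ // A ∈ C} := by
      choose! s hs using hne
      have : Function.Injective (fun A : {A : Set ℕ // A ∈ C} => s A.1) := by
        intro A B h
        apply Subtype.ext
        refine hdis _ A.2 _ B.2 (s A.1) (hs _ A.2) ?_
        have h' : s A.1 = s B.1 := h
        rw [h']
        exact hs _ B.2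
      exact this.countable
    obtain ⟨c, hc⟩ := exists_colouring (G := G) (Ω := {A : Set ℕ // A ∈ C}) ha
    have hct : ∀ A : {A : Set ℕ // A ∈ C}, ∃ F : Finset ℕ, ∀ g ∈ Fx G F, g • A = A := by
      intro A
      obtain ⟨x, hx⟩ := hne A.1 A.2
      exact ⟨{x}, fun g hg => hfix A x hx g (hg x (Finset.mem_singleton_self x))⟩
    have hlift : ∀ π : Equiv.Perm ℕ, ∃ g : G, ∀ A : {A : Set ℕ // A ∈ C}, c (g • A) = π (c A) :=
      fun π => lift_perm ha hc hcl hct π (fun A hA => absurd hA (ha0 A))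
    let col : ℕ → Option ℕ := fun m =>
      if h : ∃ A : {A : Set ℕ // A ∈ C}, m ∈ A.1 then some (c h.choose) else none
    have hcol : ∀ (A : {A : Set ℕ // A ∈ C}) (m : ℕ), m ∈ A.1 → col m = some (c A) := by
      intro A m hm
      have h : ∃ A : {A : Set ℕ // A ∈ C}, m ∈ A.1 := ⟨A, hm⟩
      have h1 : col m = some (c h.choose) := dif_pos h
      rw [h1]
      congr 2
      exact Subtype.ext (hdis _ h.choose.2 _ A.2 m h.choose_spec hm)
    have hcol' : ∀ m, (¬ ∃ A : {A : Set ℕ // A ∈ C}, m ∈ A.1) → col m = none :=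
      fun m hm => dif_neg hm
    refine ⟨col, fun n => ?_, fun π => ?_⟩
    · obtain ⟨A, hA⟩ := hC
      obtain ⟨g, hg⟩ := hlift (Equiv.swap (c ⟨A, hA⟩) n)
      obtain ⟨x, hx⟩ := hne _ (g • (⟨A, hA⟩ : {A : Set ℕ // A ∈ C})).2
      refine ⟨x, ?_⟩
      rw [hcol _ x hx, hg, Equiv.swap_apply_left]
    · obtain ⟨g, hg⟩ := hlift π
      refine ⟨g.1, g.2, fun m => ?_⟩
      by_cases h : ∃ A : {A : Set ℕ // A ∈ C}, m ∈ A.1
      · obtain ⟨A, hm⟩ := h
        rw [hcol A m hm, hcol (g • A) (g.1 m) ⟨m, hm, rfl⟩, hg]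
        rfl
      · rw [hcol' m h, hcol' _ ?_]
        · rfl
        · rintro ⟨A, hm⟩
          refine h ⟨g⁻¹ • A, ⟨g.1 m, hm, ?_⟩⟩
          show g.1⁻¹ (g.1 m) = m
          exact g.1.symm_apply_apply m
  · obtain ⟨A, hA⟩ := hC
    obtain ⟨x, hx⟩ := hne A hA
    obtain ⟨f, hf1, hf2⟩ := exists_limit (G := G) (Ω := {A : Set ℕ // A ∈ C}) ha ⟨A, hA⟩
      (ha0 _) x (fun F hF => by
        refine Set.Finite.subset (Set.finite_singleton (⟨A, hA⟩ : {A : Set ℕ // A ∈ C})) ?_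
        rintro _ ⟨g, rfl⟩
        exact hfix ⟨A, hA⟩ x hx g.1 (g.2 x hF))
    refine ⟨f, fun F => ?_, fun h => ?_⟩
    · obtain ⟨g, hg⟩ := hf1 F
      exact ⟨g.1, g.2, hg⟩
    · obtain ⟨y, hy⟩ := h x
      exact hf2 y hy

end Pool.Agent.H669.TM
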