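import Pool.Agent.H669.TM.Dich

set_option autoImplicit false
set_option linter.unusedSectionVars false

/-!
The case of a divisible part of infinite rank.
-/

namespace Pool.Agent.H669.TM

open Submodule

variable {R : Type} [CommRing R] [IsDomain R] [IsPrincipalIdealRing R] {M : Type}
  [AddCommGroup M] [Module R M]

/-- the primary component -/
def Mp (M : Type) [AddCommGroup M] [Module R M] (p : R) : Submodule R M where
  carrier := {x | ∃ j, p ^ j • x = 0}
  add_mem' := by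
    rintro x y ⟨i, hi⟩ ⟨j, hj⟩
    have h1 : p ^ (i + j) • x = 0 := by rw [pow_add, mul_comm, mul_smul, hi, smul_zero]
    have h2 : p ^ (i + j) • y = 0 := by rw [pow_add, mul_smul, hj, smul_zero]
    exact ⟨i + j, by rw [smul_add, h1, h2, add_zero]⟩
  zero_mem' := ⟨0, smul_zero _⟩
  smul_mem' := by
    rintro c x ⟨i, hi⟩
    exact ⟨i, by rw [smul_comm, hi, smul_zero]⟩

theorem mem_Mp {p : R} {x : M} : x ∈ Mp M p ↔ ∃ j, p ^ j • x = 0 := Iff.rfl

/-- the multiples of `p ^ m` in the primary component -/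
def Dm (M : Type) [AddCommGroup M] [Module R M] (p : R) (m : ℕ) : Submodule R M :=
  (Mp M p).map (LinearMap.lsmul R M (p ^ m))

theorem mem_Dm {p : R} {m : ℕ} {x : M} : x ∈ Dm M p m ↔ ∃ y ∈ Mp M p, p ^ m • y = x := Iff.rfl

theorem Dm_step {p : R} {m : ℕ}
    (h : ∀ k, m ≤ k → ∀ x : M, p • x = 0 → x ∈ Pw p k → x ∈ Pw p (k + 1)) (j : ℕ) :
    ∀ x ∈ Dm M p m, p ^ j • x = 0 → ∃ z ∈ Dm M p m, p • z = x := by
  induction j with
  | zero =>
    intro x hx hx0
    rw [pow_zero, one_smul] at hx0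
    exact ⟨0, Submodule.zero_mem _, by rw [hx0, smul_zero]⟩
  | succ j ih =>
    intro x hx hxj
    obtain ⟨y, hy, rfl⟩ := mem_Dm.1 hx
    obtain ⟨w, hw⟩ := mem_Pw.1 (h (m + j) (by omega) (p ^ j • (p ^ m • y))
      (by rw [← mul_smul, ← pow_succ']; exact hxj)
      (mem_Pw.2 ⟨y, by rw [← mul_smul, ← pow_add, add_comm]⟩))
    have hwM : w ∈ Mp M p := by
      refine ⟨(m + j + 1) + 1, ?_⟩
      rw [pow_succ', mul_smul, hw, ← mul_smul, ← pow_succ']
      exact hxj
    have h1 : p ^ m • y - p ^ m • (p • w) ∈ Dm M p m :=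
      mem_Dm.2 ⟨y - p • w, Submodule.sub_mem _ hy (Submodule.smul_mem _ _ hwM), smul_sub _ _ _⟩
    obtain ⟨z, hz, hz'⟩ := ih _ h1 (by
      rw [smul_sub, ← hw, sub_eq_zero, ← mul_smul, ← mul_smul]
      congr 1
      ring)
    refine ⟨z + p ^ m • w, Submodule.add_mem _ hz (mem_Dm.2 ⟨w, hwM, rfl⟩), ?_⟩
    rw [smul_add, hz', smul_comm p, sub_add_cancel]

theorem Dm_tors {p : R} {m : ℕ} {x : M} (hx : x ∈ Dm M p m) : ∃ j, p ^ j • x = 0 := by
  obtain ⟨y, ⟨j, hj⟩, rfl⟩ := mem_Dm.1 hx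
  exact ⟨j, by rw [smul_comm, hj, smul_zero]⟩

theorem Dm_dvb {p : R} (hp : Prime p) {m : ℕ}
    (h : ∀ k, m ≤ k → ∀ x : M, p • x = 0 → x ∈ Pw p k → x ∈ Pw p (k + 1)) :
    Dvb R (Dm M p m) := by
  have hpow : ∀ k, ∀ x ∈ Dm M p m, ∃ z ∈ Dm M p m, p ^ k • z = x := by
    intro k
    induction k with
    | zero => intro x hx; exact ⟨x, hx, by simp⟩
    | succ k ih =>
      intro x hx
      obtain ⟨z, hz, rfl⟩ := ih x hx
      obtain ⟨j, hj⟩ := Dm_tors hz
      obtain ⟨w, hw, rfl⟩ := Dm_step h j z hz hj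
      exact ⟨w, hw, by rw [← mul_smul, pow_succ]⟩
  rintro r hr ⟨x, hx⟩
  obtain ⟨k, s, hs, rfl⟩ := exists_split hr hp
  obtain ⟨j, hj⟩ := Dm_tors hx
  obtain ⟨a, b, hab⟩ := bezout hp hs j
  have h1 : s • (a • x) = x := by
    have : (a * s + b * p ^ j) • x = x := by rw [hab, one_smul]
    rw [add_smul, mul_smul b, hj, smul_zero, add_zero] at this
    rw [← mul_smul, mul_comm, this]
  obtain ⟨z, hz, hz'⟩ := hpow k (a • x) (Submodule.smul_mem _ _ hx)
  refine ⟨⟨z, hz⟩, Subtype.ext ?_⟩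
  show (p ^ k * s) • z = x
  rw [mul_comm, mul_smul, hz', h1]

theorem dvb_finsupp {Q : Type} [AddCommGroup Q] [Module R Q] (hQ : Dvb R Q) :
    Dvb R (ℕ →₀ Q) := by
  intro r hr x
  induction x using Finsupp.induction_linear with
  | zero => exact ⟨0, smul_zero _⟩
  | add f g hf hg =>
    obtain ⟨z, rfl⟩ := hf
    obtain ⟨w, rfl⟩ := hg
    exact ⟨z + w, smul_add _ _ _⟩
  | single i q =>
    obtain ⟨z, rfl⟩ := hQ r hr q
    exact ⟨Finsupp.single i z, by rw [Finsupp.smul_single]⟩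

theorem ktors {p : R} (hp : Prime p) (x : ℕ →₀ Pr hp) : ∃ j, p ^ j • x = 0 := by
  induction x using Finsupp.induction_linear with
  | zero => exact ⟨0, smul_zero _⟩
  | add f g hf hg =>
    have hf' : f ∈ Mp (ℕ →₀ Pr hp) p := hf
    have hg' : g ∈ Mp (ℕ →₀ Pr hp) p := hg
    exact Submodule.add_mem _ hf' hg'
  | single i q =>
    obtain ⟨j, hj⟩ := Pr.tors hp q
    exact ⟨j, by rw [Finsupp.smul_single, hj, Finsupp.single_zero]⟩

theorem exists_sysB (ht : Tors R M) {p : R} (hp : Prime p) (hS : ¬ (So M p).FG)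
    {F : Submodule R M} (hF : F.FG) (hB : Bad p F) : ∃ l : ℕ, 2 ≤ l ∧ Nonempty (Sys R M l) := by
  classical
  obtain ⟨m, hm⟩ := hB.stab ht hF
  obtain ⟨e, he1, he2⟩ := exists_seq (hB.notfg hF hS m)
  have hep : ∀ n, p • e n = 0 := fun n => mem_So.1 (he1 n).1
  have heD : ∀ n, e n ∈ Dm M p m := by
    intro n
    obtain ⟨y, hy⟩ := mem_Pw.1 (he1 n).2
    exact mem_Dm.2 ⟨y, ⟨m + 1, by rw [pow_succ', mul_smul, hy, hep]⟩, hy⟩
  have hD := Dm_dvb (M := M) hp hm
  -- embeddings of the quasi-cyclic module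
  have hι : ∀ n, ∃ f : Pr hp →ₗ[R] Dm M p m, (f (u hp 1) : M) = e n := by
    intro n
    obtain ⟨g, hg⟩ := ext_of_ker (baer_of_dvb hD) (LinearMap.toSpanSingleton R (Pr hp) (u hp 1))
      (LinearMap.toSpanSingleton R (Dm M p m) ⟨e n, heD n⟩) (by
        intro r hr
        rw [LinearMap.mem_ker, LinearMap.toSpanSingleton_apply] at hr ⊢
        obtain ⟨c, rfl⟩ := dvd_of_smul_u hp hr
        apply Subtype.ext
        show (p ^ 1 * c) • e n = 0
        rw [mul_comm, mul_smul, pow_one, hep, smul_zero])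
    refine ⟨g, ?_⟩
    have := hg 1
    rw [LinearMap.toSpanSingleton_apply, LinearMap.toSpanSingleton_apply, one_smul, one_smul] at this
    rw [this]
  choose ι hι using hι
  let Φ : (ℕ →₀ Pr hp) →ₗ[R] M := Finsupp.lsum R fun n => (Dm M p m).subtype ∘ₗ ι n
  have hΦs : ∀ n q, Φ (Finsupp.single n q) = (ι n q : M) := by
    intro n q
    show (Finsupp.lsum R fun n => (Dm M p m).subtype ∘ₗ ι n) (Finsupp.single n q) = _
    rw [Finsupp.lsum_single]
    rfl
  have hinj : ∀ j, ∀ x : ℕ →₀ Pr hp, p ^ j • x = 0 → Φ x = 0 → x = 0 := by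
    intro j
    induction j with
    | zero => intro x hx _; simpa using hx
    | succ j ih =>
      intro x hx hx0
      have hpx : p • x = 0 := ih (p • x) (by rw [← mul_smul, ← pow_succ]; exact hx)
        (by rw [map_smul, hx0, smul_zero])
      have hc : ∀ i, ∃ c : R, x i = c • u hp 1 := by
        intro i
        apply exists_smul_u
        rw [pow_one, ← Finsupp.smul_apply, hpx]
        rfl
      choose c hc using hc
      have hsum : ∑ i ∈ x.support, c i • e i = 0 := by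
        rw [← hx0]
        have : Φ x = ∑ i ∈ x.support, (ι i (x i) : M) := by
          conv_lhs => rw [← Finsupp.sum_single x]
          rw [Finsupp.sum, map_sum]
          exact Finset.sum_congr rfl fun i _ => hΦs i _
        rw [this]
        refine Finset.sum_congr rfl fun i _ => ?_
        rw [hc i, map_smul, Submodule.coe_smul, hι]
      ext i
      by_cases hi : i ∈ x.support
      · obtain ⟨d, hd⟩ := indep hp hep he2 _ c hsum i hi
        rw [hc i, hd, mul_comm, mul_smul]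
        have := pow_u_self hp 1
        rw [pow_one] at this
        rw [this, smul_zero]
        rfl
      · exact Finsupp.notMem_support_iff.1 hi
  have hinj' : Function.Injective Φ := by
    rw [injective_iff_map_eq_zero]
    intro x hx
    obtain ⟨j, hj⟩ := ktors hp x
    exact hinj j x hj hx
  obtain ⟨r, hr⟩ := (baer_of_dvb (dvb_finsupp (Pr.dvb hp))).extension_property Φ hinj'
    LinearMap.id
  have hr' : ∀ x, r (Φ x) = x := fun x => LinearMap.congr_fun hr x
  have hre : ∀ i, r (e i) = Finsupp.single i (u hp 1) := by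
    intro i
    rw [← hι i, ← hΦs, hr']
  obtain ⟨l, hl2, hl⟩ := exists_l hp
  refine ⟨l, hl2, ⟨⟨e, fun i j => ((Dm M p m).subtype ∘ₗ ι j) ∘ₗ (Finsupp.lapply i ∘ₗ r),
    ?_, ?_, ?_, ?_, ?_⟩⟩⟩
  · intro s n hn i hi
    apply hl
    refine indep hp hep he2 s (fun i => (n i : R)) ?_ i hi
    rw [← hn]
    exact Finset.sum_congr rfl fun i _ => Int.cast_smul_eq_zsmul R (n i) (e i)
  · intro i j hij x
    have h1 : ∀ q : Pr hp, (r (ι j q : M)) i = 0 := by
      intro q
      rw [← hΦs, hr', Finsupp.single_apply, if_neg hij.ne']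
    show (ι j ((r (ι j ((r x) i) : M)) i) : M) = 0
    rw [h1, map_zero]
    rfl
  · intro i j hij
    show (ι j ((r (e i)) i) : M) = e j
    rw [hre, Finsupp.single_eq_same, hι]
  · intro i j k hij hk
    show (ι j ((r (e k)) i) : M) = 0
    rw [hre, Finsupp.single_apply, if_neg hk, map_zero]
    rfl
  · intro x
    refine ⟨(r x).support.sup id + 1, fun i j hi _ => ?_⟩
    show (ι j ((r x) i) : M) = 0
    have : (r x) i = 0 := by
      by_contra hne
      have := Finset.le_sup (f := id) (Finsupp.mem_support_iff.2 hne)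
      simp only [id_eq] at this
      omega
    rw [this, map_zero]
    rfl

end Pool.Agent.H669.TM
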