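import Pool.Agent.H669.TM.Grp
import Pool.Agent.H669.LO.Main

set_option autoImplicit false
set_option linter.unusedSectionVars false

/-!
Expansions of torsion modules: limits of automorphisms, coding by structures, Vaught's conjecture
and faithful completeness.
-/

namespace Pool.Agent.H669.TM

open Set
open Pool.Agent.W889.VC
open Pool.Agent.H669.LO

/-! ### Limits of automorphisms -/

section lim

variable {R : Type} [CommRing R] [IsDomain R] [IsPrincipalIdealRing R] {M : Type}
  [AddCommGroup M] [Module R M]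

theorem fg_torsionBy (h : ∀ p : R, Prime p → (So M p).FG) (a : R) (ha : a ≠ 0) :
    (Submodule.torsionBy R M a).FG := by
  induction a using UniqueFactorizationMonoid.induction_on_prime with
  | h₁ => exact absurd rfl ha
  | h₂ u hu =>
    have : Submodule.torsionBy R M u = ⊥ := by
      rw [eq_bot_iff]
      intro x hx
      rw [Submodule.mem_torsionBy_iff] at hx
      rw [Submodule.mem_bot]
      exact hu.smul_eq_zero.1 hx
    rw [this]
    exact Submodule.fg_bot
  | h₃ b p hb hp ih =>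
    refine Submodule.fg_of_fg_map_of_fg_inf_ker (LinearMap.lsmul R M b) ?_ ?_
    · refine fg_of_le ?_ (h p hp)
      rintro _ ⟨x, hx, rfl⟩
      rw [mem_So]
      have := (Submodule.mem_torsionBy_iff _ _).1 hx
      rw [mul_smul] at this
      exact this
    · refine fg_of_le ?_ (ih hb)
      rintro x ⟨-, hx⟩
      exact (Submodule.mem_torsionBy_iff _ _).2 hx

theorem onto_of_fg (ht : Tors R M) (h : ∀ p : R, Prime p → (So M p).FG) (f : M → M)
    (hf : ∀ F : Finset M, ∃ g : M ≃ₗ[R] M, ∀ x ∈ F, g x = f x) : Function.Surjective f := by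
  classical
  intro x
  obtain ⟨r, hr, hx⟩ := ht x
  obtain ⟨s, hs⟩ := fg_torsionBy h r hr
  obtain ⟨g, hg⟩ := hf s
  have key : ∀ y ∈ Submodule.torsionBy R M r, f y = g y := by
    intro y hy
    obtain ⟨g', hg'⟩ := hf (insert y s)
    have h1 : ∀ z ∈ Submodule.span R (s : Set M), g' z = g z := by
      intro z hz
      induction hz using Submodule.span_induction with
      | mem z hz => rw [hg z hz, hg' z (Finset.mem_insert_of_mem hz)]
      | zero => rw [map_zero, map_zero]
      | add u v _ _ hu hv => rw [map_add, map_add, hu, hv]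
      | smul c u _ hu => rw [map_smul, map_smul, hu]
    rw [← h1 y (by rw [hs]; exact hy), hg' y (Finset.mem_insert_self _ _)]
  refine ⟨g.symm x, ?_⟩
  rw [key, LinearEquiv.apply_symm_apply]
  rw [Submodule.mem_torsionBy_iff, ← map_smul, hx, map_zero]

theorem exists_both [Countable M] (ht : Tors R M) {p : R} (hp : Prime p) (hS : ¬ (So M p).FG)
    (b : M ≃ ℕ) : (∃ col : ℕ → Option ℕ, (∀ n, ∃ m, col m = some n) ∧
      ∀ π : Equiv.Perm ℕ, ∃ g : M ≃ₗ[R] M, ∀ x, col (b (g x)) = (col (b x)).map π) ∧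
    ∃ f : ℕ → ℕ, (∀ F : Finset ℕ, ∃ g : M ≃ₗ[R] M, ∀ x, b x ∈ F → b (g x) = f (b x)) ∧
      ¬ Function.Surjective f := by
  obtain ⟨l, hl, ⟨S⟩⟩ := exists_sys ht hp hS
  exact exists_col_mod S hl b

theorem fg_iff_onto [Countable M] [Infinite M] (ht : Tors R M) :
    (∀ p : R, Prime p → (Submodule.torsionBy R M p).FG) ↔
    ∀ f : M → M, (∀ F : Finset M, ∃ g : M ≃ₗ[R] M, ∀ x ∈ F, g x = f x) →
      Function.Surjective f := by
  classical
  refine ⟨fun h => onto_of_fg ht h, fun h => ?_⟩
  by_contra hcon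
  push Not at hcon
  obtain ⟨p, hp, hS⟩ := hcon
  obtain ⟨b⟩ : Nonempty (M ≃ ℕ) := nonempty_equiv_of_countable
  obtain ⟨-, f, hf1, hf2⟩ := exists_both ht hp hS b
  apply hf2
  have h1 := h (fun x => b.symm (f (b x))) (fun F => by
    obtain ⟨g, hg⟩ := hf1 (F.image b)
    refine ⟨g, fun x hx => ?_⟩
    show g x = b.symm (f (b x))
    rw [← hg x (Finset.mem_image_of_mem _ hx), Equiv.symm_apply_apply])
  intro n
  obtain ⟨x, hx⟩ := h1 (b.symm n)
  exact ⟨b x, b.symm.injective hx⟩

end lim

/-! ### Coding of expansions -/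

section code

variable {κ : Type} (a0 : κ → ℕ)

/-- isomorphisms -/
def SIso {κ : Type} {a0 : κ → ℕ} (σ : Equiv.Perm ℕ) (x y : StrI a0) : Prop :=
  ∀ i v, y i (⇑σ ∘ v) = x i v

theorem SIso.symm {κ : Type} {a0 : κ → ℕ} {σ : Equiv.Perm ℕ} {x y : StrI a0} (h : SIso σ x y) :
    SIso σ⁻¹ y x := by
  intro i v
  rw [← h i]
  congr 1
  funext k
  exact σ.apply_symm_apply (v k)

theorem SIso.trans {κ : Type} {a0 : κ → ℕ} {σ τ : Equiv.Perm ℕ} {x y z : StrI a0}
    (h : SIso σ x y) (h' : SIso τ y z) : SIso (τ * σ) x z := by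
  intro i v
  rw [← h i, ← h' i]
  rfl

/-- isomorphisms of expansions -/
def YIso {κ ι : Type} {a0 : κ → ℕ} {a : ι → ℕ} (y z : StrI a0 × StrI a) : Prop :=
  ∃ σ : Equiv.Perm ℕ, SIso σ y.1 z.1 ∧ ∀ i v, z.2 i (⇑σ ∘ v) = y.2 i v

open Classical in
/-- codes of structures -/
noncomputable def encS (s : ℕ → κ) (x : StrI a0) (n : ℕ) (l : List ℕ) : ℕ :=
  if h : l.length = a0 (s n) then (x (s n) (fun i => l.get (i.cast h.symm))).toNat else 0

variable {a0}

theorem isI_iff' {s : ℕ → κ} (hs : Function.Surjective s) {σ : Equiv.Perm ℕ} {x y : StrI a0} :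
    IsI (encS a0 s) σ x y ↔ SIso σ x y := by
  constructor
  · intro h i v
    obtain ⟨n, rfl⟩ := hs i
    have h1 := h n (List.ofFn v)
    unfold encS at h1
    rw [dif_pos (by simp), dif_pos (by simp)] at h1
    have h2 := toNat_inj h1
    have e1 : (fun i : Fin (a0 (s n)) => ((List.ofFn v).map σ).get
        (i.cast (by simp : a0 (s n) = ((List.ofFn v).map σ).length))) = ⇑σ ∘ v := by
      funext i
      simp
    have e2 : (fun i : Fin (a0 (s n)) => (List.ofFn v).get
        (i.cast (by simp : a0 (s n) = (List.ofFn v).length))) = v := by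
      funext i
      simp
    rw [e1, e2] at h2
    exact h2
  · intro h n l
    unfold encS
    by_cases hl : l.length = a0 (s n)
    · have hl' : (l.map σ).length = a0 (s n) := by rw [List.length_map]; exact hl
      rw [dif_pos hl, dif_pos hl', ← h (s n)]
      congr 2
      funext i
      simp
    · have hl' : ¬ (l.map σ).length = a0 (s n) := by rw [List.length_map]; exact hl
      rw [dif_neg hl, dif_neg hl']

theorem meas_encS (s : ℕ → κ) (n : ℕ) (l : List ℕ) :
    Measurable (fun x : StrI a0 => encS a0 s x n l) := by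
  unfold encS
  by_cases hl : l.length = a0 (s n)
  · simp only [dif_pos hl]
    have h2' : Measurable (fun x : StrI a0 => x (s n) (fun i => l.get (i.cast hl.symm))) :=
      (measurable_pi_apply (fun i : Fin (a0 (s n)) => l.get (i.cast hl.symm))).comp
        (measurable_pi_apply (s n))
    exact (measurable_of_countable Bool.toNat).comp h2'
  · simp only [dif_neg hl]
    exact measurable_const

/-- two binary relations -/
def toP' (z : StrI a0 × StrI (fun _ : Bool => 2)) : StrI a0 × (BinStr × BinStr) :=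
  (z.1, (fun m n => z.2 false ![m, n], fun m n => z.2 true ![m, n]))

/-- and back -/
def ofP' (y : StrI a0 × (BinStr × BinStr)) : StrI a0 × StrI (fun _ : Bool => 2) :=
  (y.1, fun i v => match i with
    | false => y.2.1 (v 0) (v 1)
    | true => y.2.2 (v 0) (v 1))

theorem faithful_two [Countable κ] [Nonempty κ] {x0 : StrI a0} {col : ℕ → Option ℕ}
    (hcol : ∀ n, ∃ m, col m = some n)
    (hlift : ∀ ρ : Equiv.Perm ℕ, ∃ g, SIso g x0 x0 ∧ ∀ m, col (g m) = (col m).map ρ) :
    Faithful YIso (fun y : StrI a0 × StrI (fun _ : Bool => 2) => ∃ σ, SIso σ x0 y.1) := by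
  obtain ⟨s, hs⟩ := exists_surjective_nat κ
  have hF : Faithful (EI (encS a0 s)) (Kx (encS a0 s) x0) :=
    faithful_exp (meas_encS s) target_Bip.faithful (fun x hx => hx.1) hcol (fun ρ => by
      obtain ⟨g, h1, h2⟩ := hlift ρ
      exact ⟨g, (isI_iff' hs).2 h1, h2⟩)
  refine faithful_pull (E := EI (encS a0 s)) (K := Kx (encS a0 s) x0) toP' ofP' ?_ ?_ ?_ ?_ ?_ hF
  · refine measurable_fst.prodMk (Measurable.prodMk ?_ ?_)
    · refine measurable_pi_iff.2 fun m => measurable_pi_iff.2 fun n => ?_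
      have h2' : Measurable (fun q : StrI (fun _ : Bool => 2) => q false ![m, n]) :=
        (measurable_pi_apply (![m, n] : Fin 2 → ℕ)).comp (measurable_pi_apply false)
      exact h2'.comp measurable_snd
    · refine measurable_pi_iff.2 fun m => measurable_pi_iff.2 fun n => ?_
      have h2' : Measurable (fun q : StrI (fun _ : Bool => 2) => q true ![m, n]) :=
        (measurable_pi_apply (![m, n] : Fin 2 → ℕ)).comp (measurable_pi_apply true)
      exact h2'.comp measurable_snd
  · intro y _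
    rfl
  · rintro y z ⟨σ, h1, h2⟩
    refine ⟨σ, (isI_iff' hs).2 h1, fun m n => ⟨?_, ?_⟩⟩
    · have := h2 false ![m, n]
      rwa [comp2] at this
    · have := h2 true ![m, n]
      rwa [comp2] at this
  · rintro y z - - ⟨σ, h1, h2⟩
    refine ⟨σ, (isI_iff' hs).1 h1, fun i v => ?_⟩
    have e2 : ![v 0, v 1] = v := by
      funext i
      fin_cases i <;> rfl
    have e3 : ⇑σ ∘ v = ![σ (v 0), σ (v 1)] := by
      funext i
      fin_cases i <;> rfl
    cases i with
    | false =>
      have := (h2 (v 0) (v 1)).1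
      rw [e3, ← e2]
      exact this
    | true =>
      have := (h2 (v 0) (v 1)).2
      rw [e3, ← e2]
      exact this
  · rintro z ⟨⟨σ, hσ⟩, -⟩
    exact ⟨σ, (isI_iff' hs).1 hσ⟩

variable {ι : Type} (a0) (a : ι → ℕ)

/-- the relations of an expansion -/
def zS (y : StrI a0 × StrI a) : StrI (Sum.elim a0 a)
  | .inl i => y.1 i
  | .inr i => y.2 i

/-- the expansion with given relations -/
def unS (w : StrI (Sum.elim a0 a)) : StrI a0 × StrI a :=
  (fun i => w (.inl i), fun i => w (.inr i))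

theorem zS_unS (w : StrI (Sum.elim a0 a)) : zS a0 a (unS a0 a w) = w := by
  funext j
  rcases j with i | i <;> rfl

variable {a0 a}

theorem yiso_iff {y z : StrI a0 × StrI a} : YIso y z ↔
    ∃ σ : Equiv.Perm ℕ, ∀ j v, zS a0 a z j (⇑σ ∘ v) = zS a0 a y j v := by
  constructor
  · rintro ⟨σ, h1, h2⟩
    refine ⟨σ, fun j v => ?_⟩
    rcases j with i | i
    · exact h1 i v
    · exact h2 i v
  · rintro ⟨σ, h⟩
    exact ⟨σ, fun i v => h (.inl i) v, fun i v => h (.inr i) v⟩

variable (e : ℕ ≃ κ ⊕ ι)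

/-- type of the relations -/
abbrev Pq (a0 : κ → ℕ) (a : ι → ℕ) (j : κ ⊕ ι) : Type := (Fin (Sum.elim a0 a j) → ℕ) → Bool

/-- the code of an expansion -/
def upS (y : StrI a0 × StrI a) : Str (fun n => Sum.elim a0 a (e n)) := fun n => zS a0 a y (e n)

/-- decoding -/
def dnS (x : Str (fun n => Sum.elim a0 a (e n))) : StrI a0 × StrI a :=
  unS a0 a (Equiv.piCongrLeft (Pq a0 a) e x)

theorem dnS_apply (x : Str (fun n => Sum.elim a0 a (e n))) (n : ℕ) :
    Equiv.piCongrLeft (Pq a0 a) e x (e n) = x n := Equiv.piCongrLeft_apply_apply (Pq a0 a) e x n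

theorem up_dnS (x : Str (fun n => Sum.elim a0 a (e n))) : upS e (dnS e x) = x := by
  funext n
  unfold upS dnS
  rw [zS_unS, dnS_apply]

theorem dn_upS (y : StrI a0 × StrI a) : dnS e (upS e y) = y := by
  unfold dnS
  have : Equiv.piCongrLeft (Pq a0 a) e (upS e y) = zS a0 a y := by
    funext j
    obtain ⟨n, rfl⟩ := e.surjective j
    rw [dnS_apply]
    rfl
  rw [this]
  rfl

theorem iso_upS (y z : StrI a0 × StrI a) : YIso y z ↔ Iso (upS e y) (upS e z) := by
  rw [yiso_iff]
  constructor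
  · rintro ⟨σ, h⟩
    exact ⟨σ, fun n v => h (e n) v⟩
  · rintro ⟨σ, h⟩
    refine ⟨σ, fun j v => ?_⟩
    obtain ⟨n, rfl⟩ := e.surjective j
    exact h n v

theorem cont_piS : Continuous (fun x : Str (fun n => Sum.elim a0 a (e n)) =>
    (Equiv.piCongrLeft (Pq a0 a) e x : (j : κ ⊕ ι) → Pq a0 a j)) := by
  refine continuous_pi fun j => ?_
  obtain ⟨n, rfl⟩ := e.surjective j
  have : (fun x : Str (fun n => Sum.elim a0 a (e n)) => Equiv.piCongrLeft (Pq a0 a) e x (e n)) =
      fun x => x n := funext fun x => dnS_apply e x n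
  rw [this]
  exact continuous_apply n

theorem meas_piS : Measurable (fun x : Str (fun n => Sum.elim a0 a (e n)) =>
    (Equiv.piCongrLeft (Pq a0 a) e x : (j : κ ⊕ ι) → Pq a0 a j)) := by
  refine measurable_pi_iff.2 fun j => ?_
  obtain ⟨n, rfl⟩ := e.surjective j
  have : (fun x : Str (fun n => Sum.elim a0 a (e n)) => Equiv.piCongrLeft (Pq a0 a) e x (e n)) =
      fun x => x n := funext fun x => dnS_apply e x n
  rw [this]
  exact measurable_pi_apply n

theorem cont_dnS : Continuous (dnS e : Str (fun n => Sum.elim a0 a (e n)) → StrI a0 × StrI a) := by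
  have h : Continuous (unS a0 a) := by
    refine Continuous.prodMk ?_ ?_
    · exact continuous_pi fun i => continuous_apply (A := Pq a0 a) (.inl i : κ ⊕ ι)
    · exact continuous_pi fun i => continuous_apply (A := Pq a0 a) (.inr i : κ ⊕ ι)
  exact h.comp (cont_piS e)

theorem meas_dnS : Measurable (dnS e : Str (fun n => Sum.elim a0 a (e n)) → StrI a0 × StrI a) := by
  have h : Measurable (unS a0 a) := by
    refine Measurable.prodMk ?_ ?_
    · exact measurable_pi_iff.2 fun i => measurable_pi_apply (X := Pq a0 a) (.inl i : κ ⊕ ι)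
    · exact measurable_pi_iff.2 fun i => measurable_pi_apply (X := Pq a0 a) (.inr i : κ ⊕ ι)
  exact h.comp (meas_piS e)

end code

section final

variable {κ ι : Type} [Countable κ] [Infinite κ] [Countable ι] {a0 : κ → ℕ} (a : ι → ℕ)

theorem vcof_allS (K : StrI a0 × StrI a → Prop)
    (h : ∀ b : ℕ → ℕ, VCof True (Iso (a := b)) (fun _ => True)) : VCof True YIso K := by
  obtain ⟨e⟩ : Nonempty (ℕ ≃ κ ⊕ ι) := nonempty_equiv_of_countable
  exact back_cls (upS e) (dnS e) (cont_dnS e) (meas_dnS e) (up_dnS e) (dn_upS e) (iso_upS e)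
    (fun _ => True) K (fun _ _ => trivial) (h _)

theorem vcof_expS (K : StrI a0 × StrI a → Prop)
    (hK : ∀ y, K y → ∀ f : ℕ → ℕ, (∀ n, ∃ σ, SIso σ y.1 y.1 ∧ ∀ i < n, σ i = f i) →
      Function.Surjective f) : VCof True YIso K := by
  obtain ⟨e⟩ : Nonempty (ℕ ≃ κ ⊕ ι) := nonempty_equiv_of_countable
  refine back_cls (upS e) (dnS e) (cont_dnS e) (meas_dnS e) (up_dnS e) (dn_upS e) (iso_upS e)
    Pool.Agent.Helper27.CF.Cli K (fun y hy f hf => ?_) (vcof_cli _)
  refine hK y hy f fun n => ?_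
  obtain ⟨σ, h1, h2⟩ := hf n
  have h3 : ∀ j v, zS a0 a y j (⇑σ ∘ v) = zS a0 a y j v := by
    intro j v
    obtain ⟨n, rfl⟩ := e.surjective j
    exact h1 n v
  exact ⟨σ, fun i v => h3 (.inl i) v, h2⟩

end final

end Pool.Agent.H669.TM
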